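import Pool.Agent.Q161.EA.Stm
import Pool.Agent.Q239.EL.NV

/-!
# Project EA, job NICE: the elements of the descent are nice
-/

set_option autoImplicit false

namespace Pool.Agent.Q224.EA

open Polynomial NumberField IsDedekindDomain Finset
open Pool.Agent.Q51.EL Pool.Agent.Q239.EL
open Pool.Agent.Q161.EA
open Pool.Agent.Q161.OS (Cov Tr Gd)

section

variable {L : Type} [Field L] [NumberField L]

theorem absNorm_eq_prod (α : 𝓞 L) :
    ((Ideal.absNorm (Ideal.span {α}) : ℕ) : ℝ) = ∏ σ : L →ₐ[ℚ] ℂ, ‖σ (α : L)‖ := by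
  rw [Ideal.absNorm_span_singleton, Nat.cast_natAbs, Int.cast_abs]
  have h1 : algebraMap ℚ ℂ (Algebra.norm ℚ (α : L)) = ∏ σ : L →ₐ[ℚ] ℂ, σ (α : L) :=
    Algebra.norm_eq_prod_embeddings ℚ ℂ (α : L)
  rw [← Algebra.coe_norm_int] at h1
  rw [← norm_prod, ← h1]
  simp

theorem absNorm_le {α : 𝓞 L} {X : ℝ} (h : ∀ σ : L →+* ℂ, ‖σ (α : L)‖ ≤ X) :
    ((Ideal.absNorm (Ideal.span {α}) : ℕ) : ℝ) ≤ X ^ Module.finrank ℚ L := by
  rw [absNorm_eq_prod]
  calc ∏ σ : L →ₐ[ℚ] ℂ, ‖σ (α : L)‖ ≤ ∏ _σ : L →ₐ[ℚ] ℂ, X :=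
        Finset.prod_le_prod (fun _ _ => norm_nonneg _) (fun σ _ => h σ.toRingHom)
    _ = X ^ Module.finrank ℚ L := by
        rw [Finset.prod_const, Finset.card_univ, AlgHom.card]

/-- valuation and divisibility -/
theorem val_ne_one {v : HeightOneSpectrum (𝓞 L)} {α : 𝓞 L} (hα : α ≠ 0)
    (h : v.asIdeal ∣ Ideal.span {α}) : v.valuation L (α : L) ≠ 1 := by
  rw [val_int v hα]
  intro h1
  rw [← WithZero.exp_zero, WithZero.exp_inj] at h1
  have h2 := (mu_pos_iff (span_ne hα)).1 h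
  omega

theorem dvd_of_val {v : HeightOneSpectrum (𝓞 L)} {α : 𝓞 L} (hα : α ≠ 0)
    (h : v.valuation L (α : L) = WithZero.exp (-1 : ℤ)) :
    v.asIdeal ∣ Ideal.span {α} ∧ mu v (Ideal.span {α}) = 1 := by
  rw [val_int v hα, WithZero.exp_inj] at h
  have h1 : mu v (Ideal.span {α}) = 1 := by omega
  exact ⟨(mu_pos_iff (span_ne hα)).2 (by omega), h1⟩

/-- the structure of the primes of a good `α` outside `B` -/
theorem good_prime {B : ℕ} {t : 𝓞 L} {κ D : ℤ} {α : 𝓞 L} {m : ℤ} (hα : α ≠ 0)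
    (hG : Gd B t κ D α m) {v : HeightOneSpectrum (𝓞 L)} (hv : v.asIdeal ∣ Ideal.span {α})
    (hb : ¬ ∃ l : ℕ, l.Prime ∧ l ∣ B ∧ (l : 𝓞 L) ∈ v.asIdeal) :
    ∃ l : ℕ, l.Prime ∧ ¬ l ∣ B ∧ (l : ℤ) ∣ D ∧ ¬ (l : ℤ) ∣ m ∧ Abv v l ∧
      Ideal.absNorm v.asIdeal = l ∧ mu v (Ideal.span {α}) = 1 ∧
      ∀ w : HeightOneSpectrum (𝓞 L), Abv w l → w.asIdeal ∣ Ideal.span {α} → w = v := by
  obtain ⟨p, f, hp, hpv, hf, hpf⟩ := below v
  have hpB : ¬ p ∣ B := fun h => hb ⟨p, hp, h, hpv⟩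
  by_cases hpD : (p : ℤ) ∣ D
  · rcases hG.odd p hp hpB hpD with h | h
    · exact absurd (h.2.1 v hpv) (val_ne_one hα hv)
    · obtain ⟨hm, v0, h1, h2, h3, h4, -⟩ := h
      have hv0 : v = v0 := by
        by_contra hne
        exact val_ne_one hα hv (h4 v hpv hne)
      subst hv0
      refine ⟨p, hp, hpB, hpD, hm, hpv, h2, (dvd_of_val hα h3).2, ?_⟩
      intro w hw hwd
      by_contra hne
      exact val_ne_one hα hwd (h4 w hw hne)
  · exact absurd ((hG.even p hp hpB hpD).2 v hpv) (val_ne_one hα hv)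

end

theorem nice : S_NICE := by
  classical
  intro L _ _ B t κ C hB hC
  refine ⟨C ^ Module.finrank ℚ L * B, ?_⟩
  intro D α m hD hα hG hm1 hmD hσ
  have hD0 : D ≠ 0 := hD.ne_zero
  have hI : Ideal.span {α} ≠ 0 := span_ne hα
  obtain ⟨S, hS⟩ : ∃ S, S = UniqueFactorizationMonoid.normalizedFactors (Ideal.span {α}) := ⟨_, rfl⟩
  have hSP : S.prod = Ideal.span {α} := by
    rw [hS]
    exact Ideal.prod_normalizedFactors_eq_self hI
  have hpl : ∀ P ∈ S, ∃ v : HeightOneSpectrum (𝓞 L), v.asIdeal = P ∧ v.asIdeal ∣ Ideal.span {α} := by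
    intro P hP
    rw [hS] at hP
    obtain ⟨v, hv⟩ := place_of_prime (UniqueFactorizationMonoid.prime_of_normalized_factor P hP)
    exact ⟨v, hv, by rw [hv]; exact UniqueFactorizationMonoid.dvd_of_mem_normalizedFactors hP⟩
  have hmemS : ∀ v : HeightOneSpectrum (𝓞 L), v.asIdeal ∣ Ideal.span {α} → v.asIdeal ∈ S := by
    intro v hv
    rw [hS]
    exact (UniqueFactorizationMonoid.mem_normalizedFactors_iff hI).2 ⟨v.prime, hv⟩
  have hcount : ∀ v : HeightOneSpectrum (𝓞 L), S.count v.asIdeal = mu v (Ideal.span {α}) := by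
    intro v
    have h1 := UniqueFactorizationMonoid.emultiplicity_eq_count_normalizedFactors
      v.prime.irreducible hI
    rw [normalize_eq, ← hS] at h1
    have h2 := FiniteMultiplicity.emultiplicity_eq_multiplicity
      (FiniteMultiplicity.of_prime_left v.prime hI)
    rw [h2] at h1
    unfold mu
    exact_mod_cast h1.symm
  set bad : Ideal (𝓞 L) → Prop := fun P => ∃ l : ℕ, l.Prime ∧ l ∣ B ∧ (l : 𝓞 L) ∈ P with hbad
  obtain ⟨SB, hSB⟩ : ∃ SB, SB = S.filter bad := ⟨_, rfl⟩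
  obtain ⟨SR, hSR⟩ : ∃ SR, SR = S.filter (fun P => ¬ bad P) := ⟨_, rfl⟩
  have hadd : SB + SR = S := by rw [hSB, hSR]; exact Multiset.filter_add_not _ _
  have hkey : ∀ P ∈ SR, ∃ v : HeightOneSpectrum (𝓞 L), v.asIdeal = P ∧ ∃ l : ℕ, l.Prime ∧
      ¬ l ∣ B ∧ (l : ℤ) ∣ D ∧ ¬ (l : ℤ) ∣ m ∧ Abv v l ∧ Ideal.absNorm P = l ∧
      mu v (Ideal.span {α}) = 1 ∧
      ∀ w : HeightOneSpectrum (𝓞 L), Abv w l → w.asIdeal ∣ Ideal.span {α} → w = v := by
    intro P hP
    rw [hSR, Multiset.mem_filter] at hP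
    obtain ⟨v, hv, hvd⟩ := hpl P hP.1
    obtain ⟨l, h1, h2, h3, h4, h5, h6, h7, h8⟩ := good_prime hα hG hvd (by rw [hv]; exact hP.2)
    exact ⟨v, hv, l, h1, h2, h3, h4, h5, by rw [← hv]; exact h6, h7, h8⟩
  have hnodup : SR.Nodup := by
    rw [Multiset.nodup_iff_count_le_one]
    intro P
    by_cases hP : P ∈ SR
    · obtain ⟨v, hv, l, -, -, -, -, -, -, hmu, -⟩ := hkey P hP
      calc SR.count P ≤ S.count P := Multiset.count_le_of_le _ (by rw [hSR]; exact Multiset.filter_le _ _)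
        _ = 1 := by rw [← hv, hcount, hmu]
        _ ≤ 1 := le_rfl
    · rw [Multiset.count_eq_zero_of_notMem hP]
      norm_num
  have hinj : ∀ P ∈ SR, ∀ Q ∈ SR, Ideal.absNorm P = Ideal.absNorm Q → P = Q := by
    intro P hP Q hQ hPQ
    obtain ⟨v, hv, l, hl, -, -, -, hvl, hPl, -, huniq⟩ := hkey P hP
    obtain ⟨w, hw, l', hl', -, -, -, hwl, hQl, -, -⟩ := hkey Q hQ
    have hll : l = l' := by rw [← hPl, ← hQl, hPQ]
    subst hll
    have hQS : Q ∈ S := by
      rw [← hadd]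
      exact Multiset.mem_add.2 (Or.inr hQ)
    obtain ⟨w', hw', hw'd⟩ := hpl Q hQS
    have hww : w' = w := HeightOneSpectrum.ext (by rw [hw, hw'])
    subst hww
    rw [← hv, ← hw, huniq w' hwl hw'd]
  -- norms
  obtain ⟨b, hb⟩ : ∃ b, b = (SB.map Ideal.absNorm).prod := ⟨_, rfl⟩
  obtain ⟨r, hr⟩ : ∃ r, r = (SR.map Ideal.absNorm).prod := ⟨_, rfl⟩
  obtain ⟨N, hN⟩ : ∃ N, N = Ideal.absNorm (Ideal.span {α}) := ⟨_, rfl⟩
  have hNbr : N = b * r := by
    rw [hN, hb, hr, ← Multiset.prod_add, ← Multiset.map_add, hadd, ← hSP, map_multiset_prod]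
  have hN0 : N ≠ 0 := by
    rw [hN, Ne, Ideal.absNorm_eq_zero_iff]
    exact hI
  have hb0 : b ≠ 0 := by
    rintro rfl
    exact hN0 (by rw [hNbr, zero_mul])
  have hr0 : r ≠ 0 := by
    rintro rfl
    exact hN0 (by rw [hNbr, mul_zero])
  have hcardB : SB.card ≤ b := by
    have h1 : 2 ^ (SB.map Ideal.absNorm).card ≤ (SB.map Ideal.absNorm).prod := by
      apply Multiset.pow_card_le_prod
      intro x hx
      obtain ⟨P, hP, rfl⟩ := Multiset.mem_map.1 hx
      have hPS : P ∈ S := by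
        rw [← hadd]
        exact Multiset.mem_add.2 (Or.inl hP)
      obtain ⟨v, hv, -⟩ := hpl P hPS
      obtain ⟨p, f, hp, -, hf, hpf⟩ := below v
      rw [← hv, hpf]
      calc 2 ≤ p := hp.two_le
        _ = p ^ 1 := (pow_one p).symm
        _ ≤ p ^ f := Nat.pow_le_pow_right hp.pos hf
    rw [Multiset.card_map, ← hb] at h1
    exact Nat.lt_two_pow_self.le.trans h1
  have hcardR : SR.card ≤ N.primeFactors.card := by
    have h1 : (SR.map Ideal.absNorm).Nodup := Multiset.Nodup.map_on hinj hnodup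
    have h2 : (SR.map Ideal.absNorm).toFinset ⊆ N.primeFactors := by
      intro x hx
      rw [Multiset.mem_toFinset] at hx
      have hxr : x ∣ r := by
        rw [hr]
        exact Multiset.dvd_prod hx
      obtain ⟨P, hP, rfl⟩ := Multiset.mem_map.1 hx
      obtain ⟨v, hv, l, hl, -, -, -, hvl, hPl, -, huniq⟩ := hkey P hP
      rw [Nat.mem_primeFactors]
      refine ⟨by rw [hPl]; exact hl, ?_, hN0⟩
      rw [hNbr]
      exact Dvd.dvd.mul_left hxr b
    have h3 := Finset.card_le_card h2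
    rw [Multiset.toFinset_card_of_nodup h1, Multiset.card_map] at h3
    exact h3
  have hmpos : 0 < m := by omega
  have hDdvd : D.natAbs ∣ r * m.natAbs * B := by
    have hsq : Squarefree D.natAbs := Int.squarefree_natAbs.2 hD
    rw [← Nat.prod_primeFactors_of_squarefree hsq]
    apply Finset.prod_primes_dvd
    · intro p hp
      exact (Nat.prime_of_mem_primeFactors hp).prime
    · intro p hp
      have hpp := Nat.prime_of_mem_primeFactors hp
      have hpD : (p : ℤ) ∣ D := Int.natCast_dvd.2 (Nat.dvd_of_mem_primeFactors hp)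
      by_cases hpB : p ∣ B
      · exact Dvd.dvd.mul_left hpB _
      rcases hG.odd p hpp hpB hpD with h | h
      · exact Dvd.dvd.mul_right (Dvd.dvd.mul_left (Int.natCast_dvd.1 h.1) _) _
      · obtain ⟨hm, v0, h1, h2, h3, h4, -⟩ := h
        have hd := (dvd_of_val hα h3).1
        have hv0S := hmemS v0 hd
        have hv0R : v0.asIdeal ∈ SR := by
          rw [hSR, Multiset.mem_filter]
          refine ⟨hv0S, ?_⟩
          rintro ⟨l, hl, hlB, hlv⟩
          exact hpB (prime_unique hpp hl h1 hlv ▸ hlB)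
        have : p ∣ r := by
          rw [hr]
          apply Multiset.dvd_prod
          rw [Multiset.mem_map]
          exact ⟨v0.asIdeal, hv0R, h2⟩
        exact Dvd.dvd.mul_right (Dvd.dvd.mul_right this _) _
  have hDle : D.natAbs ≤ r * m.natAbs * B := by
    apply Nat.le_of_dvd _ hDdvd
    have : 0 < m.natAbs := by omega
    positivity
  have hmR : (0 : ℝ) < (m : ℝ) := by exact_mod_cast hmpos
  have hmnat : ((m.natAbs : ℕ) : ℝ) = (m : ℝ) := by
    rw [Nat.cast_natAbs, abs_of_pos hmpos]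
  have hDm : (D.natAbs : ℝ) / m ≤ r * B := by
    rw [div_le_iff₀ hmR]
    calc (D.natAbs : ℝ) ≤ ((r * m.natAbs * B : ℕ) : ℝ) := by exact_mod_cast hDle
      _ = r * B * m := by push_cast; rw [hmnat]; ring
  have hn0 : Module.finrank ℚ L ≠ 0 := Module.finrank_pos.ne'
  have hX : (C * ((D.natAbs : ℝ) / m) ^ ((1 : ℝ) / Module.finrank ℚ L)) ^ Module.finrank ℚ L ≤
      C ^ Module.finrank ℚ L * (r * B) := by
    rw [mul_pow, one_div, Real.rpow_inv_natCast_pow (by positivity) hn0]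
    exact mul_le_mul_of_nonneg_left hDm (by positivity)
  have hNle : (N : ℝ) ≤ C ^ Module.finrank ℚ L * (r * B) := by
    rw [hN]
    exact (absNorm_le hσ).trans hX
  have hrR : (0 : ℝ) < r := by exact_mod_cast Nat.pos_of_ne_zero hr0
  have hbR : (1 : ℝ) ≤ b := by exact_mod_cast Nat.one_le_iff_ne_zero.2 hb0
  refine ⟨hα, ?_, ?_⟩
  · intro σ
    calc ‖σ (α : L)‖ ^ Module.finrank ℚ L
        ≤ (C * ((D.natAbs : ℝ) / m) ^ ((1 : ℝ) / Module.finrank ℚ L)) ^ Module.finrank ℚ L :=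
          pow_le_pow_left₀ (norm_nonneg _) (hσ σ) _
      _ ≤ C ^ Module.finrank ℚ L * (r * B) := hX
      _ ≤ C ^ Module.finrank ℚ L * B * (Ideal.absNorm (Ideal.span {α}) : ℕ) := by
          rw [← hN, hNbr]
          push_cast
          have h1 : C ^ Module.finrank ℚ L * (r * B) = C ^ Module.finrank ℚ L * B * (1 * r) := by ring
          rw [h1]
          apply mul_le_mul_of_nonneg_left _ (by positivity)
          exact mul_le_mul_of_nonneg_right hbR hrR.le
  · have hbC : (b : ℝ) ≤ C ^ Module.finrank ℚ L * B := by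
      have h1 : (b : ℝ) * r ≤ C ^ Module.finrank ℚ L * B * r := by
        calc (b : ℝ) * r = N := by rw [hNbr]; push_cast; ring
          _ ≤ C ^ Module.finrank ℚ L * (r * B) := hNle
          _ = C ^ Module.finrank ℚ L * B * r := by ring
      exact le_of_mul_le_mul_right h1 hrR
    unfold Om
    rw [← hS, ← hadd, Multiset.card_add, ← hN]
    push_cast
    have h1 : (SB.card : ℝ) ≤ b := by exact_mod_cast hcardB
    have h2 : (SR.card : ℝ) ≤ (N.primeFactors.card : ℕ) := by exact_mod_cast hcardR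
    linarith

end Pool.Agent.Q224.EA
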