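import Pool.Agent.Q224.EA.SelcCore
import Pool.Agent.Q161.OS.All

/-!
# Project EA, job SELC
-/

set_option autoImplicit false

namespace Pool.Agent.Q224.EA

open Pool.Agent.Q161.EA

theorem selc : S_BOX2 → S_NICE → S_SELC :=
  selc_of Pool.Agent.Q161.OS.t_desc2 Pool.Agent.Q237.OS.ty2o

end Pool.Agent.Q224.EA
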