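import Pool.Agent.Q224.EA.Time

/-!
# Algorithms with running time `f(k) * |x| ^ g(ea(D))`
-/

set_option autoImplicit false

namespace Pool.Agent.NPC.Q224EA

open _root_.Q224.EA Pool.Agent.H633R2 Turing

theorem collapse {α : Type} [TEnc α] {κ : α → ℕ} {P : α → Prop} (hP : InW1 κ P)
    (M : TM2ComputableAux Bool Bool) (f g : ℕ → ℕ)
    (hM : ∀ x : List (List Bool) × List (ℕ × ℕ), (∀ w, ¬ IsCycle (arcOf x.1) w) →
      ∃ b : Bool, (b = true ↔ HasLinkage x) ∧
        TmRuns M (bits x) (bits b) (f x.2.length * (bits x).length ^ g (ea (arcOf x.1)))) :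
    ∃ (M' : TM2ComputableAux Bool Bool) (h : ℕ → ℕ) (p : Polynomial ℕ),
      (Computable f → Computable h) ∧ ∀ a, ∃ b : Bool, (b = true ↔ P a) ∧
        TmRuns M' (bits a) (bits b) (h (κ a) * p.eval (bits a).length) := by
  classical
  obtain ⟨F, g0, hF, hg0, hred⟩ := reduction hP
  have hF' := (fptTime_iff κ F).1 hF
  obtain ⟨H, q, hH, hH1, hq⟩ := hF'.length_le
  obtain ⟨c1, h1, p1, hh1, hc1⟩ := hF'
  -- the algorithm as a program
  let S : Type := {x : List (List Bool) × List (ℕ × ℕ) // ∀ w, ¬ IsCycle (arcOf x.1) w}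
  obtain ⟨c2, C, hc2⟩ := toCmd (α := S) (β := Bool) (ea := fun x => bits x.1) (eb := bits)
    (f := fun x => decide (HasLinkage x.1)) M
    (fun x => f x.1.2.length * (bits x.1).length ^ g (_root_.Q224.EA.ea (arcOf x.1.1))) (by
      intro x
      obtain ⟨b, hb, hr⟩ := hM x.1 x.2
      have : b = decide (HasLinkage x.1) := by
        rw [Bool.eq_iff_iff, hb, decide_eq_true_eq]
      rw [← this]
      exact hr)
  set c := maj g 19 with hc
  set f' : ℕ → ℕ := fun m => maj f (g0 m) with hf'
  have hrun : ∀ a, Runs (Cmd.seq c1 c2) (inp (bits a)) (inp (bits (decide (P a))))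
      ((h1 (κ a) + C * (H (κ a) + f' (κ a) * H (κ a) ^ c + 1)) *
        (p1 + q + q ^ c + 1).eval (bits a).length) := by
    intro a
    obtain ⟨hr1, hr2, hr3, hr4, hr5⟩ := hred a
    have e : decide (P a) = decide (HasLinkage (F a)) := by
      rw [decide_eq_decide]; exact hr1
    rw [e]
    refine ((hc1 a).seq (hc2 ⟨F a, hr3⟩)).mono ?_
    simp only [Polynomial.eval_add, Polynomial.eval_one, Polynomial.eval_pow]
    have hlen : 1 ≤ (bits (F a)).length := by
      rw [bits_length]
      exact sz_pos _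
    have hY := hq a
    have hc' : g (ea (arcOf (F a).1)) ≤ c := (le_maj g _).trans (maj_mono g hr5)
    have hfk : f (F a).2.length ≤ f' (κ a) := (le_maj f _).trans (maj_mono f hr2)
    have hT : f (F a).2.length * (bits (F a)).length ^ g (ea (arcOf (F a).1)) ≤
        f' (κ a) * (H (κ a) ^ c * (Polynomial.eval (bits a).length q) ^ c) := by
      refine Nat.mul_le_mul hfk ?_
      rw [← mul_pow]
      exact (Nat.pow_le_pow_right hlen hc').trans (Nat.pow_le_pow_left hY c)
    generalize f (F a).2.length * (bits (F a)).length ^ g (ea (arcOf (F a).1)) = t2 at hT ⊢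
    generalize (bits (F a)).length = Y at hY ⊢
    generalize Polynomial.eval (bits a).length q ^ c = b3 at hT ⊢
    generalize Polynomial.eval (bits a).length q = b2 at hY ⊢
    generalize Polynomial.eval (bits a).length p1 = b1
    generalize H (κ a) ^ c = Hc at hT ⊢
    generalize H (κ a) = H0 at hY ⊢
    generalize f' (κ a) = f0 at hT ⊢
    generalize h1 (κ a) = a1
    have e1 : C * (Y + t2 + 1) ≤ C * (H0 * b2 + f0 * (Hc * b3) + 1) :=
      Nat.mul_le_mul_left _ (by omega)
    have e2 : C * (H0 * b2 + f0 * (Hc * b3) + 1) ≤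
        C * ((H0 + f0 * Hc + 1) * (b1 + b2 + b3 + 1)) := by
      refine Nat.mul_le_mul_left _ ?_
      have : (H0 + f0 * Hc + 1) * (b1 + b2 + b3 + 1) = H0 * b2 + f0 * (Hc * b3) + 1 +
        (H0 * (b1 + b3 + 1) + f0 * Hc * (b1 + b2 + 1) + (b1 + b2 + b3)) := by ring
      omega
    have e3 : a1 * b1 ≤ a1 * (b1 + b2 + b3 + 1) := Nat.mul_le_mul_left _ (by omega)
    calc a1 * b1 + C * (Y + t2 + 1)
        ≤ a1 * (b1 + b2 + b3 + 1) + C * ((H0 + f0 * Hc + 1) * (b1 + b2 + b3 + 1)) := by omega
      _ = _ := by ring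
  obtain ⟨M', hM'⟩ := toTm _ _ hrun
  refine ⟨M', fun m => (h1 m + C * (H m + f' m * H m ^ c + 1)) + 1, p1 + q + q ^ c + 1, ?_,
    fun a => ⟨decide (P a), by rw [decide_eq_true_eq], ?_⟩⟩
  · intro hf
    have hf'c : Computable f' := (maj_computable hf).comp hg0
    exact add_computable (add_computable hh1 (mul_computable (Computable.const C)
      (add_computable (add_computable hH (mul_computable hf'c (pow_computable hH c)))
        (Computable.const 1)))) (Computable.const 1)
  · obtain ⟨h2⟩ := hM' a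
    refine ⟨outputs_conv rfl rfl ?_ h2⟩
    have : 1 ≤ (p1 + q + q ^ c + 1).eval (bits a).length := by
      rw [Polynomial.eval_add, Polynomial.eval_one]
      omega
    have key : ∀ X Y : ℕ, 1 ≤ Y → X * Y + 1 ≤ (X + 1) * Y := by
      intro X Y hY
      rw [Nat.add_mul]
      omega
    exact key _ _ this

end Pool.Agent.NPC.Q224EA
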