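import Mathlib

/-!
# Ears of digraphs and identifying sequences; levelled acyclic digraphs
-/

set_option autoImplicit false

namespace Q224.EA

variable {V : Type*}

/-- The arcs of a walk, in order. -/
def arcs (w : List V) : List (V × V) := w.zip w.tail

/-- A path: a walk without repeated vertices. -/
def IsPath (A : V → V → Prop) (w : List V) : Prop := w ≠ [] ∧ w.IsChain A ∧ w.Nodup

/-- A cycle: a closed walk `v, l, v` without further repetitions, of length at least `2`. -/
def IsCycle (A : V → V → Prop) (w : List V) : Prop :=
  ∃ (v : V) (l : List V), l ≠ [] ∧ w = v :: (l ++ [v]) ∧ w.IsChain A ∧ (v :: l).Nodup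

/-- An ear is a path or a cycle. -/
def IsEar (A : V → V → Prop) (w : List V) : Prop := IsPath A w ∨ IsCycle A w

/-- The subgraph relation. -/
def Sub (w w' : List V) : Prop := w ⊆ w' ∧ arcs w ⊆ arcs w'

/-- Maximal ears. -/
def IsMaximalEar (A : V → V → Prop) (w : List V) : Prop :=
  IsEar A w ∧ ∀ w', IsEar A w' → Sub w w' → Sub w' w

/-- Identifying sequences. -/
def Identifies (A : V → V → Prop) (w : List V) (a : List (V × V)) : Prop :=
  a ≠ [] ∧ (∃ w', IsEar A w' ∧ Sub w w' ∧ Sub w' w ∧ a.Sublist (arcs w')) ∧
    ∀ w', IsEar A w' → a.Sublist (arcs w') → Sub w' w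

/-- The length of a shortest identifying sequence (`0` if there are no arcs). -/
noncomputable def eaOf (A : V → V → Prop) (w : List V) : ℕ :=
  sInf {m | ∃ a, Identifies A w a ∧ a.length = m}

/-- Ear anonymity. -/
noncomputable def ea (A : V → V → Prop) : ℕ :=
  sSup {m | ∃ w, IsMaximalEar A w ∧ m = eaOf A w}

theorem arcs_cons (x y : V) (l : List V) : arcs (x :: y :: l) = (x, y) :: arcs (y :: l) := rfl

theorem arcs_single (x : V) : arcs [x] = [] := rfl

theorem arcs_nil : arcs ([] : List V) = [] := rfl

theorem mem_of_arcs {w : List V} {a : V × V} (h : a ∈ arcs w) : a.1 ∈ w ∧ a.2 ∈ w := by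
  have := List.of_mem_zip (show (a.1, a.2) ∈ w.zip w.tail from h)
  exact ⟨this.1, List.mem_of_mem_tail this.2⟩

theorem ea_le_of {A : V → V → Prop} {L : ℕ} (h : ∀ w, IsMaximalEar A w → arcs w ≠ [] →
    ∃ a, Identifies A w a ∧ a.length ≤ L) : ea A ≤ L := by
  refine csSup_le' ?_
  rintro m ⟨w, hw, rfl⟩
  by_cases hne : arcs w = []
  · have : {m | ∃ a, Identifies A w a ∧ a.length = m} = ∅ := by
      ext m
      simp only [Set.mem_ofPred_eq, Set.mem_empty_iff_false, iff_false]
      rintro ⟨a, ⟨h1, ⟨w', h2, h3, h4, h5⟩, -⟩, -⟩
      obtain ⟨x, hx⟩ := List.exists_mem_of_ne_nil a h1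
      have := h4.2 (h5.subset hx)
      rw [hne] at this
      simp at this
    unfold eaOf
    rw [this, Nat.sInf_empty]
    exact Nat.zero_le _
  · obtain ⟨a, h1, h2⟩ := h w hw hne
    have h3 : a.length ∈ {m | ∃ a, Identifies A w a ∧ a.length = m} := ⟨a, h1, rfl⟩
    exact (Nat.sInf_le h3).trans h2

theorem Sub.refl (w : List V) : Sub w w := ⟨fun _ h => h, fun _ h => h⟩

section Acyclic

variable {A : V → V → Prop} {pot lev : V → ℕ} (hpot : ∀ u v, A u v → pot u < pot v)

include hpot

theorem head_lt : ∀ {w : List V} {x : V}, (x :: w).IsChain A → ∀ v ∈ w, pot x < pot v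
  | [], _, _, _, h => absurd h (by simp)
  | y :: w, x, hc, v, h => by
    rw [List.isChain_cons_cons] at hc
    rcases List.mem_cons.1 h with h | h
    · rw [h]; exact hpot _ _ hc.1
    · exact (hpot _ _ hc.1).trans (head_lt hc.2 v h)

theorem nodup_of_chain : ∀ {w : List V}, w.IsChain A → w.Nodup
  | [], _ => List.nodup_nil
  | x :: w, hc => by
    rw [List.nodup_cons]
    refine ⟨fun h => lt_irrefl _ (head_lt hpot hc x h), ?_⟩
    exact nodup_of_chain (List.IsChain.tail hc)

theorem no_cycle (w : List V) : ¬ IsCycle A w := by
  rintro ⟨v, l, hl, rfl, hc, -⟩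
  exact lt_irrefl _ (head_lt hpot hc v (by simp))

theorem isEar_iff {w : List V} : IsEar A w ↔ w ≠ [] ∧ w.IsChain A := by
  constructor
  · rintro (h | h)
    · exact ⟨h.1, h.2.1⟩
    · exact absurd h (no_cycle hpot w)
  · rintro ⟨h1, h2⟩
    exact Or.inl ⟨h1, h2, nodup_of_chain hpot h2⟩

theorem lt_last {w : List V} {y : V} (hc : (w ++ [y]).IsChain A) : ∀ v ∈ w, pot v < pot y := by
  induction w with
  | nil => intro v h; exact absurd h (by simp)
  | cons x w ih =>
    intro v h
    rcases List.mem_cons.1 h with h | h
    · rw [h]; exact head_lt hpot hc y (by simp)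
    · exact ih (List.IsChain.tail hc) v h

/-- The first vertex of a maximal ear is a source. -/
theorem maximal_head {x : V} {l : List V} (h : IsMaximalEar A (x :: l)) (u : V) : ¬ A u x := by
  intro hu
  obtain ⟨h1, h2⟩ := h
  rw [isEar_iff hpot] at h1
  have h3 : (u :: x :: l).IsChain A := List.IsChain.cons_cons hu h1.2
  have h4 := h2 (u :: x :: l) ((isEar_iff hpot).2 ⟨by simp, h3⟩)
    ⟨fun a ha => List.mem_cons_of_mem _ ha, fun a ha => List.mem_cons_of_mem _ ha⟩
  have h5 := h4.1 (List.mem_cons_self (a := u) (l := x :: l))
  exact lt_irrefl _ (head_lt hpot h3 u h5)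

/-- The last vertex of a maximal ear is a sink. -/
theorem maximal_last {y : V} {l : List V} (h : IsMaximalEar A (l ++ [y])) (u : V) :
    ¬ A y u := by
  intro hu
  obtain ⟨h1, h2⟩ := h
  rw [isEar_iff hpot] at h1
  have h3 : ((l ++ [y]) ++ [u]).IsChain A := by
    rw [List.isChain_append]
    refine ⟨h1.2, List.isChain_singleton _, ?_⟩
    intro a ha b hb
    simp only [List.getLast?_append, List.getLast?_singleton, Option.some_or, Option.mem_def,
      Option.some.injEq] at ha
    simp only [List.head?_cons, Option.mem_def, Option.some.injEq] at hb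
    subst ha hb
    exact hu
  have hsub : ∀ l' : List V, arcs l' ⊆ arcs (l' ++ [u]) := by
    intro l'
    induction l' with
    | nil => intro a ha; exact absurd ha (by simp [arcs])
    | cons x l' ih =>
      cases l' with
      | nil => intro a ha; exact absurd ha (by simp [arcs])
      | cons z l' =>
        intro a ha
        rw [arcs_cons, List.mem_cons] at ha
        rw [List.cons_append, List.cons_append, arcs_cons, List.mem_cons]
        rcases ha with ha | ha
        · exact Or.inl ha
        · exact Or.inr (ih ha)
  have h4 := h2 _ ((isEar_iff hpot).2 ⟨by simp, h3⟩)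
    ⟨fun a ha => List.mem_append_left _ ha, hsub _⟩
  have h5 := h4.1 (show u ∈ l ++ [y] ++ [u] by simp)
  exact lt_irrefl _ (lt_last hpot h3 u h5)

variable (hl : ∀ u v, A u v → lev u ≤ lev v)

/-- The chosen arcs of a walk: the last one and all those that change the level. -/
def sel (lev : V → ℕ) : List V → List (V × V)
  | [] => []
  | [_] => []
  | [x, y] => [(x, y)]
  | x :: y :: z :: l =>
    if lev x < lev y then (x, y) :: sel lev (y :: z :: l) else sel lev (y :: z :: l)

omit hpot in
theorem sel_sublist : ∀ w : List V, (sel lev w).Sublist (arcs w)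
  | [] => List.Sublist.slnil
  | [_] => List.Sublist.slnil
  | [x, y] => List.Sublist.refl _
  | x :: y :: z :: l => by
    rw [arcs_cons]
    unfold sel
    split_ifs
    · exact (sel_sublist (y :: z :: l)).cons_cons _
    · exact (sel_sublist (y :: z :: l)).cons _

include hl

omit hpot in
theorem lev_mono : ∀ {w : List V} {x : V}, (x :: w).IsChain A → ∀ v ∈ w, lev x ≤ lev v
  | [], _, _, _, h => absurd h (by simp)
  | y :: w, x, hc, v, h => by
    rw [List.isChain_cons_cons] at hc
    rcases List.mem_cons.1 h with h | h
    · rw [h]; exact hl _ _ hc.1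
    · exact (hl _ _ hc.1).trans (lev_mono hc.2 v h)

omit hpot in
theorem sel_length {L : ℕ} (hL : ∀ v, lev v ≤ L) :
    ∀ {w : List V} {x : V}, (x :: w).IsChain A → (sel lev (x :: w)).length + lev x ≤ L + 1
  | [], x, _ => by simp only [sel, List.length_nil]; have := hL x; omega
  | [y], x, _ => by simp only [sel, List.length_singleton]; have := hL x; omega
  | y :: z :: l, x, hc => by
    rw [List.isChain_cons_cons] at hc
    have ih := sel_length hL hc.2
    have h1 := hl _ _ hc.1
    unfold sel
    split_ifs with h
    · rw [List.length_cons]; omega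
    · omega

omit hpot in
/-- The first chosen arc starts on the level of the first vertex. -/
theorem sel_head : ∀ {w : List V} {x y : V}, (x :: y :: w).IsChain A →
    ∃ u v t, sel lev (x :: y :: w) = (u, v) :: t ∧ lev u = lev x ∧ u ∈ x :: y :: w
  | [], x, y, _ => ⟨x, y, [], rfl, rfl, by simp⟩
  | z :: l, x, y, hc => by
    rw [List.isChain_cons_cons] at hc
    unfold sel
    split_ifs with h
    · exact ⟨x, y, _, rfl, rfl, by simp⟩
    · obtain ⟨u, v, t, h1, h2, h3⟩ := sel_head hc.2
      refine ⟨u, v, t, h1, ?_, List.mem_cons_of_mem _ h3⟩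
      have := hl _ _ hc.1
      omega

variable (hu : ∀ u v v', A u v → A u v' → lev u = lev v → lev u = lev v' → v = v')

include hu

/-- A walk is determined by its first vertex and its chosen arcs. -/
theorem sel_prefix : ∀ (w : List V) (x : V) (w' : List V), (x :: w).IsChain A →
    (x :: w').IsChain A → (sel lev (x :: w)).Sublist (arcs (x :: w')) → w <+: w'
  | [], _, _, _, _, _ => List.nil_prefix
  | [y], x, w', hc, hc', hs => by
    have h1 : (x, y) ∈ arcs (x :: w') := hs.subset (by simp [sel])
    cases w' with
    | nil => rw [arcs_single] at h1; exact absurd h1 (by simp)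
    | cons y' w' =>
      rw [arcs_cons, List.mem_cons] at h1
      rcases h1 with h1 | h1
      · obtain rfl : y = y' := (Prod.ext_iff.1 h1).2
        exact ⟨w', rfl⟩
      · exact absurd (head_lt hpot hc' x (mem_of_arcs h1).1) (lt_irrefl _)
  | y :: z :: l, x, w', hc, hc', hs => by
    cases w' with
    | nil =>
      obtain ⟨u, v, t, h1, -, -⟩ := sel_head hl hc
      rw [h1, arcs_single, List.sublist_nil] at hs
      exact absurd hs (by simp)
    | cons y' w' =>
      rw [arcs_cons] at hs
      have hcc := (List.isChain_cons_cons.1 hc)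
      have hcc' := (List.isChain_cons_cons.1 hc')
      have key : y = y' ∧ (sel lev (y :: z :: l)).Sublist (arcs (y' :: w')) := by
        unfold sel at hs
        split_ifs at hs with h
        · have h1 : (x, y) ∈ (x, y') :: arcs (y' :: w') := hs.subset (by simp)
          rcases List.mem_cons.1 h1 with h1 | h1
          · obtain rfl : y = y' := (Prod.ext_iff.1 h1).2
            exact ⟨rfl, List.cons_sublist_cons.1 hs⟩
          · exact absurd (head_lt hpot hc' x (mem_of_arcs h1).1) (lt_irrefl _)
        · obtain ⟨u, v, t, h1, h2, h3⟩ := sel_head hl hcc.2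
          have hux : u ≠ x := by
            rintro rfl
            exact absurd (head_lt hpot hc _ h3) (lt_irrefl _)
          rw [h1] at hs
          have hs' : ((u, v) :: t).Sublist (arcs (y' :: w')) := by
            cases hs with
            | cons _ h => exact h
            | cons_cons _ h => exact absurd rfl hux
          refine ⟨?_, by rw [h1]; exact hs'⟩
          have h5 : u ∈ y' :: w' := (mem_of_arcs (hs'.subset (by simp : (u, v) ∈ (u, v) :: t))).1
          have h6 : lev y' ≤ lev u := by
            rcases List.mem_cons.1 h5 with h5 | h5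
            · rw [h5]
            · exact lev_mono hl hcc'.2 u h5
          have h7 := hl _ _ hcc.1
          have h8 := hl _ _ hcc'.1
          exact hu x y y' hcc.1 hcc'.1 (by omega) (by omega)
      obtain ⟨rfl, hs2⟩ := key
      have ih := sel_prefix (z :: l) y w' hcc.2 hcc'.2 hs2
      obtain ⟨r, hr⟩ := ih
      exact ⟨r, by rw [← hr]; rfl⟩

/-- In a levelled acyclic digraph every maximal ear with at least one arc has a short
identifying sequence of arcs lying on it in this order. -/
theorem short_identifying {L : ℕ} (hL : ∀ v, lev v ≤ L) {w : List V} (hw : IsMaximalEar A w)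
    (hne : arcs w ≠ []) : ∃ a, a.Sublist (arcs w) ∧ Identifies A w a ∧ a.length ≤ L + 2 := by
  match w, hw, hne with
  | [], _, hne => exact absurd rfl hne
  | [x], _, hne => exact absurd rfl hne
  | x :: y :: l, hw, _ =>
    have hc := ((isEar_iff hpot).1 hw.1).2
    have hcc := List.isChain_cons_cons.1 hc
    have hsrc := maximal_head hpot hw
    obtain ⟨l', z, hz⟩ : ∃ l' z, x :: y :: l = l' ++ [z] := by
      rcases List.eq_nil_or_concat (x :: y :: l) with h | ⟨l', z, h⟩
      · exact absurd h (by simp)
      · exact ⟨l', z, by rw [h, List.concat_eq_append]⟩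
    have hsink : ∀ u, ¬ A z u := by
      rw [hz] at hw
      exact maximal_last hpot hw
    by_cases hlen : l = []
    · subst hlen
      refine ⟨[(x, y)], by simp [arcs], ⟨by simp, ⟨_, hw.1, Sub.refl _, Sub.refl _,
        by simp [arcs]⟩, ?_⟩, by simp⟩
      intro w' hw' hs
      have hc' := ((isEar_iff hpot).1 hw').2
      have hmem : (x, y) ∈ arcs w' := hs.subset (by simp)
      -- the first vertex
      have key : ∃ w'', w' = x :: y :: w'' := by
        cases w' with
        | nil => exact absurd hmem (by simp [arcs])
        | cons a w' =>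
          cases w' with
          | nil => exact absurd hmem (by simp [arcs])
          | cons b w' =>
            rw [arcs_cons] at hmem
            rcases List.mem_cons.1 hmem with h | h
            · obtain ⟨rfl, rfl⟩ := Prod.ext_iff.1 h
              exact ⟨w', rfl⟩
            · exfalso
              have h1 := (mem_of_arcs h).1
              obtain ⟨i, hi, hx⟩ := List.getElem_of_mem h1
              have h2 := List.isChain_iff_getElem.1 hc' i (by simp at hi ⊢; omega)
              rw [List.getElem_cons_succ, hx] at h2
              exact hsrc _ h2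
      obtain ⟨w'', rfl⟩ := key
      have hz' : z = y := by
        have h1 : ([x] ++ [y] : List V) = l' ++ [z] := hz
        simpa using (List.append_inj' h1 rfl).2.symm
      subst hz'
      cases w'' with
      | nil => exact Sub.refl _
      | cons a w'' =>
        have := (List.isChain_cons_cons.1 (List.isChain_cons_cons.1 hc').2).1
        exact absurd this (hsink a)
    · obtain ⟨c, l2, rfl⟩ := List.exists_cons_of_ne_nil hlen
      refine ⟨(x, y) :: sel lev (y :: c :: l2), ?_, ⟨by simp, ⟨_, hw.1, Sub.refl _, Sub.refl _,
        ?_⟩, ?_⟩, ?_⟩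
      · rw [arcs_cons]; exact (sel_sublist _).cons_cons _
      · rw [arcs_cons]; exact (sel_sublist _).cons_cons _
      · intro w' hw' hs
        have hc' := ((isEar_iff hpot).1 hw').2
        have hmem : (x, y) ∈ arcs w' := hs.subset (by simp)
        have key : ∃ w'', w' = x :: y :: w'' := by
          cases w' with
          | nil => exact absurd hmem (by simp [arcs])
          | cons a w' =>
            cases w' with
            | nil => exact absurd hmem (by simp [arcs])
            | cons b w' =>
              rw [arcs_cons] at hmem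
              rcases List.mem_cons.1 hmem with h | h
              · obtain ⟨rfl, rfl⟩ := Prod.ext_iff.1 h
                exact ⟨w', rfl⟩
              · exfalso
                have h1 := (mem_of_arcs h).1
                obtain ⟨i, hi, hx⟩ := List.getElem_of_mem h1
                have h2 := List.isChain_iff_getElem.1 hc' i (by simp at hi ⊢; omega)
                rw [List.getElem_cons_succ, hx] at h2
                exact hsrc _ h2
        obtain ⟨w'', rfl⟩ := key
        rw [arcs_cons] at hs
        have hs2 := List.cons_sublist_cons.1 hs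
        obtain ⟨r, hr⟩ := sel_prefix hpot hl hu (c :: l2) y w'' hcc.2
          (List.isChain_cons_cons.1 hc').2 hs2
        have hw2 : x :: y :: w'' = (x :: y :: c :: l2) ++ r := by rw [← hr]; rfl
        cases r with
        | nil => rw [hw2, List.append_nil]; exact Sub.refl _
        | cons a r =>
          exfalso
          rw [hw2, hz] at hc'
          rw [List.append_assoc, List.isChain_append] at hc'
          have := hc'.2.1
          simp only [List.cons_append, List.nil_append] at this
          exact hsink a (List.isChain_cons_cons.1 this).1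
      · have := sel_length hl hL (x := y) (w := c :: l2) hcc.2
        rw [List.length_cons]
        omega

end Acyclic

end Q224.EA
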