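import Pool.Agent.Q224.EA.Sound
import Pool.Agent.Q224.EA.Ear

/-!
# Linkages in the levelled digraph and solutions of the grid tiling instance
-/

set_option autoImplicit false

namespace Q224.EA

/-- There is a linkage with a path for each of the given pairs. -/
def Linked {V : Type*} (A : V → V → Prop) (S : Set (V × V)) : Prop :=
  ∃ L : Set (List V), (∀ P ∈ L, IsPath A P) ∧ (∀ P ∈ L, ∀ Q ∈ L, P ≠ Q → P.Disjoint Q) ∧
    ∀ st ∈ S, ∃ P ∈ L, P.head? = some st.1 ∧ P.getLast? = some st.2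

/-- A digraph whose vertices are coded by the vertices of the network. -/
structure Lay {V : Type*} (A : V → V → Prop) (φ : V → Cd) (n k : ℕ)
    (T : ℕ → ℕ → ℕ → ℕ → Bool) : Prop where
  inj : Function.Injective φ
  mem : ∀ u, Mem n k (φ u)
  surj : ∀ d, Mem n k d → ∃ u, φ u = d
  arc : ∀ u v, A u v ↔ Arc n k T (φ u) (φ v)

section

variable {V : Type*} {A : V → V → Prop} {φ : V → Cd} {n k : ℕ} {T : ℕ → ℕ → ℕ → ℕ → Bool}

theorem Lay.pot_lt (h : Lay A φ n k T) {u v : V} (huv : A u v) :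
    pot n (φ u) < pot n (φ v) := Q224.EA.pot_lt ((h.arc u v).1 huv) (h.mem u) (h.mem v)

theorem Lay.lev_le (h : Lay A φ n k T) {u v : V} (huv : A u v) :
    lev (φ u) ≤ lev (φ v) := lev_mono' ((h.arc u v).1 huv) (h.mem u) (h.mem v)

theorem Lay.lev_unique (h : Lay A φ n k T) {u v v' : V} (h1 : A u v) (h2 : A u v')
    (h3 : lev (φ u) = lev (φ v)) (h4 : lev (φ u) = lev (φ v')) : v = v' :=
  h.inj (Q224.EA.lev_unique ((h.arc _ _).1 h1) ((h.arc _ _).1 h2) (h.mem _) (h.mem _) (h.mem _)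
    h3 h4)

theorem Lay.short (h : Lay A φ n k T) {w : List V} (hw : IsMaximalEar A w) (hne : arcs w ≠ []) :
    ∃ a, a.Sublist (arcs w) ∧ Identifies A w a ∧ a.length ≤ 19 :=
  short_identifying (pot := fun u => pot n (φ u)) (lev := fun u => lev (φ u))
    (fun _ _ h1 => h.pot_lt h1) (fun _ _ h1 => h.lev_le h1)
    (fun _ _ _ h1 h2 h3 h4 => h.lev_unique h1 h2 h3 h4) (L := 17)
    (fun v => Q224.EA.lev_le (h.mem v)) hw hne

theorem Lay.ea_le (h : Lay A φ n k T) : ea A ≤ 19 :=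
  ea_le_of fun w hw hne => by
    obtain ⟨a, -, h1, h2⟩ := h.short hw hne
    exact ⟨a, h1, h2⟩

theorem Lay.acyclic (h : Lay A φ n k T) (w : List V) : ¬ IsCycle A w :=
  no_cycle (pot := fun u => pot n (φ u)) (fun _ _ h1 => h.pot_lt h1) w

/-- The terminal pairs. -/
def Prs (φ : V → Cd) (k : ℕ) : Set (V × V) :=
  {uv | ∃ (e : ℕ) (s : ℕ × ℕ), e < 10 ∧ s.1 < k ∧ s.2 < k ∧ φ uv.1 = (2, e, s, 0) ∧
    φ uv.2 = (3, e, s, 0)}

theorem mem_of_head? {w : List V} {u : V} (h : w.head? = some u) : u ∈ w :=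
  List.mem_of_head? h

/-- The successor of a vertex on a walk. -/
theorem exists_next : ∀ {w : List V} {t u : V}, w.IsChain A → w.getLast? = some t → u ∈ w →
    u ≠ t → ∃ v ∈ w, A u v
  | [], _, _, _, h, _, _ => by simp at h
  | [x], t, u, _, h, hu, hne => by
    simp at h hu
    exact absurd (hu.trans h) hne
  | x :: y :: l, t, u, hc, h, hu, hne => by
    rw [List.isChain_cons_cons] at hc
    rcases List.mem_cons.1 hu with rfl | hu
    · exact ⟨y, by simp, hc.1⟩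
    · rw [List.getLast?_cons_cons] at h
      obtain ⟨v, hv, hA⟩ := exists_next hc.2 h hu hne
      exact ⟨v, List.mem_cons_of_mem _ hv, hA⟩

theorem Lay.fam (h : Lay A φ n k T) {w : ℕ → ℕ × ℕ → List V}
    (hw : ∀ e s, e < 10 → s.1 < k → s.2 < k → (w e s).IsChain A ∧
      (∃ u, φ u = (2, e, s, 0) ∧ (w e s).head? = some u) ∧
      (∃ u, φ u = (3, e, s, 0) ∧ (w e s).getLast? = some u))
    (hd : ∀ e s e' s' u, e < 10 → s.1 < k → s.2 < k → e' < 10 → s'.1 < k → s'.2 < k →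
      u ∈ w e s → u ∈ w e' s' → e = e' ∧ s = s') :
    Fam n k T (fun e s d => (e < 10 ∧ s.1 < k ∧ s.2 < k) ∧ ∃ u ∈ w e s, φ u = d) where
  mem := by
    rintro e s d ⟨-, u, -, rfl⟩
    exact h.mem u
  start := by
    intro e s he h1 h2
    obtain ⟨-, ⟨u, hu1, hu2⟩, -⟩ := hw e s he h1 h2
    exact ⟨⟨he, h1, h2⟩, u, List.mem_of_head? hu2, hu1⟩
  stop := by
    intro e s he h1 h2
    obtain ⟨-, -, u, hu1, hu2⟩ := hw e s he h1 h2
    exact ⟨⟨he, h1, h2⟩, u, List.mem_of_getLast? hu2, hu1⟩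
  next := by
    rintro e s he h1 h2 d ⟨hh, u, hu, rfl⟩ hne
    obtain ⟨hc, -, t, ht1, ht2⟩ := hw e s he h1 h2
    have hut : u ≠ t := by
      rintro rfl
      exact hne ht1
    obtain ⟨v, hv, hA⟩ := exists_next hc ht2 hu hut
    exact ⟨φ v, ⟨hh, v, hv, rfl⟩, (h.arc u v).1 hA⟩
  back := by
    intro e s he h1 h2
    obtain ⟨hc, ⟨u, hu1, hu2⟩, t, ht1, ht2⟩ := hw e s he h1 h2
    obtain ⟨l, hl⟩ : ∃ l, w e s = l ++ [t] := by
      obtain ⟨l, hl⟩ := List.getLast?_eq_some_iff.1 ht2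
      exact ⟨l, hl⟩
    have hlne : l ≠ [] := by
      rintro rfl
      rw [hl] at hu2
      simp at hu2
      rw [hu2, hu1] at ht1
      simp at ht1
    obtain ⟨l', z, hz⟩ : ∃ l' z, l = l' ++ [z] := by
      rcases List.eq_nil_or_concat l with h' | ⟨l', z, h'⟩
      · exact absurd h' hlne
      · exact ⟨l', z, by rw [h', List.concat_eq_append]⟩
    subst hz
    rw [hl] at hc
    have hzt : A z t := by
      rw [List.append_assoc, List.isChain_append] at hc
      exact (List.isChain_cons_cons.1 hc.2.1).1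
    have hc2 : (l' ++ [z]).IsChain A := (List.isChain_append.1 hc).1
    refine ⟨φ z, ⟨⟨he, h1, h2⟩, z, by rw [hl]; simp, rfl⟩, ?_, ?_⟩
    · rw [← ht1]
      exact (h.arc z t).1 hzt
    · rintro d ⟨-, v, hv, rfl⟩
      rw [hl] at hv
      rcases List.mem_append.1 hv with hv | hv
      · right
        rcases List.mem_append.1 hv with hv | hv
        · exact (lt_last (pot := fun u => pot n (φ u)) (fun _ _ h3 => h.pot_lt h3) hc2 v hv).le
        · rw [List.mem_singleton] at hv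
          rw [hv]
      · left
        rw [List.mem_singleton] at hv
        rw [hv]
        exact ht1
  disj := by
    rintro e s e' s' d he h1 h2 he' h1' h2' ⟨-, u, hu, rfl⟩ ⟨-, v, hv, hvu⟩
    have := h.inj hvu
    subst this
    exact hd e s e' s' v he h1 h2 he' h1' h2' hu hv

theorem Lay.sound (h : Lay A φ n k T) (hL : Linked A (Prs φ k)) :
    ∃ x y : ℕ → ℕ, (∀ i < k, x i < n) ∧ (∀ i < k, y i < n) ∧
      ∀ i < k, ∀ j < k, T i j (x i) (y j) = true := by
  obtain ⟨L, hL1, hL2, hL3⟩ := hL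
  have hex : ∀ (e : ℕ) (s : ℕ × ℕ), ∃ w : List V, e < 10 → s.1 < k → s.2 < k → w ∈ L ∧
      (∃ u, φ u = (2, e, s, 0) ∧ w.head? = some u) ∧
      (∃ u, φ u = (3, e, s, 0) ∧ w.getLast? = some u) := by
    intro e s
    by_cases hh : e < 10 ∧ s.1 < k ∧ s.2 < k
    · obtain ⟨he, h1, h2⟩ := hh
      obtain ⟨u, hu⟩ := h.surj (2, e, s, 0) ⟨h1, h2, Or.inr ⟨Or.inl rfl, he, rfl⟩⟩
      obtain ⟨v, hv⟩ := h.surj (3, e, s, 0) ⟨h1, h2, Or.inr ⟨Or.inr rfl, he, rfl⟩⟩
      obtain ⟨w, hw1, hw2, hw3⟩ := hL3 (u, v) ⟨e, s, he, h1, h2, hu, hv⟩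
      exact ⟨w, fun _ _ _ => ⟨hw1, ⟨u, hu, hw2⟩, ⟨v, hv, hw3⟩⟩⟩
    · exact ⟨[], fun a b c => absurd ⟨a, b, c⟩ hh⟩
  choose w hw using hex
  have hfam : Fam n k T (fun e s d => (e < 10 ∧ s.1 < k ∧ s.2 < k) ∧ ∃ u ∈ w e s, φ u = d) := by
    refine h.fam (fun e s he h1 h2 => ?_) ?_
    · obtain ⟨hw1, hw2, hw3⟩ := hw e s he h1 h2
      exact ⟨(hL1 _ hw1).2.1, hw2, hw3⟩
    · intro e s e' s' u he h1 h2 he' h1' h2' hu hu'
      obtain ⟨hw1, ⟨v, hv1, hv2⟩, -⟩ := hw e s he h1 h2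
      obtain ⟨hw1', ⟨v', hv1', hv2'⟩, -⟩ := hw e' s' he' h1' h2'
      by_cases heq : w e s = w e' s'
      · rw [heq, hv2'] at hv2
        have : v' = v := Option.some.inj hv2
        subst this
        rw [hv1] at hv1'
        have h3 := congrArg (fun d : Cd => (d.2.1, d.2.2.1)) hv1'
        simp only [Prod.mk.injEq] at h3
        exact ⟨h3.1, h3.2⟩
      · exact absurd hu' (hL2 _ hw1 _ hw1' heq hu)
  obtain ⟨a, b, hC⟩ := hfam.crs
  exact hC.solution

end

/-! ### Completeness -/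

section

variable {n k : ℕ} {T : ℕ → ℕ → ℕ → ℕ → Bool} {x y : ℕ → ℕ}

/-- The position of the bundle paths on the tracks. -/
def ps (n : ℕ) (x y : ℕ → ℕ) (q : ℕ) (s : ℕ × ℕ) : ℕ :=
  if q < 2 then x s.1 + 1 else if q < 4 then n - x s.1 else
    if q < 6 then y s.2 + 1 else n - y s.2

theorem ps_zs (q : ℕ) (s : ℕ × ℕ) : ps n x y q (zs k q s) = ps n x y q s := by
  unfold zs
  split_ifs with h1 h2
  · unfold ps
    rcases h1 with rfl | rfl <;> simp
  · unfold ps
    rcases h2 with rfl | rfl <;> simp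
  · rfl

/-- The owner of a vertex. -/
def key (n k : ℕ) (x y : ℕ → ℕ) (d : Cd) : ℕ × (ℕ × ℕ) :=
  if 2 ≤ d.1 then (d.2.1, zs k d.2.1 d.2.2.1) else
    if d.2.2.2 = ps n x y d.2.1 d.2.2.1 then (8 + d.1, d.2.2.1) else
      if d.2.2.2 < ps n x y d.2.1 d.2.2.1 then (d.2.1, zs k d.2.1 d.2.2.1) else
        (d.2.1, d.2.2.1)

/-- The steps inside the territory of an owner. -/
def Stp (n k : ℕ) (T : ℕ → ℕ → ℕ → ℕ → Bool) (x y : ℕ → ℕ) (o : ℕ × (ℕ × ℕ)) (d e : Cd) : Prop :=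
  Arc n k T d e ∧ Mem n k e ∧ key n k x y e = o

theorem ps_range (hx : ∀ i < k, x i < n) (hy : ∀ i < k, y i < n) {s : ℕ × ℕ} (h1 : s.1 < k)
    (h2 : s.2 < k) (q : ℕ) : 1 ≤ ps n x y q s ∧ ps n x y q s ≤ n := by
  have h3 := hx _ h1
  have h4 := hy _ h2
  unfold ps
  split_ifs <;> omega

theorem bundle_path (hx : ∀ i < k, x i < n) (hy : ∀ i < k, y i < n)
    (hT : ∀ i < k, ∀ j < k, T i j (x i) (y j) = true) {c : ℕ} (hc : c < 2) {s : ℕ × ℕ}
    (h1 : s.1 < k) (h2 : s.2 < k) :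
    Relation.ReflTransGen (Stp n k T x y (8 + c, s)) (2, 8 + c, s, 0) (3, 8 + c, s, 0) := by
  have hr := ps_range hx hy h1 h2
  have hkey : ∀ q, key n k x y (c, q, s, ps n x y q s) = (8 + c, s) := by
    intro q
    unfold key
    simp only
    rw [if_neg (by omega), if_pos trivial]
  have hmem : ∀ q < 8, Mem n k (c, q, s, ps n x y q s) := by
    intro q hq
    exact ⟨h1, h2, Or.inl ⟨hc, hq, by have := hr q; simp only; omega⟩⟩
  have hRR : ∀ q < 7, RR n T c q s (ps n x y q s) (ps n x y (q + 1) s) := by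
    intro q hq
    have h3 := hx _ h1
    have h4 := hy _ h2
    have h5 := hT _ h1 _ h2
    unfold RR
    obtain rfl | rfl | rfl | rfl | rfl | rfl | rfl : q = 0 ∨ q = 1 ∨ q = 2 ∨ q = 3 ∨ q = 4 ∨
      q = 5 ∨ q = 6 := by omega
    · left; simp [ps]
    · right; left; simp [ps]; omega
    · left; simp [ps]
    · right; right
      refine ⟨rfl, Or.inr ?_⟩
      have e1 : n - ps n x y 3 s = x s.1 := by simp [ps]; omega
      have e2 : ps n x y (3 + 1) s - 1 = y s.2 := by simp [ps]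
      rw [e1, e2]
      exact h5
    · left; simp [ps]
    · right; left; simp [ps]; omega
    · left; simp [ps]
  have hstart : Stp n k T x y (8 + c, s) (2, 8 + c, s, 0) (c, 0, s, ps n x y 0 s) := by
    refine ⟨?_, hmem 0 (by omega), hkey 0⟩
    unfold Arc
    have := hr 0
    right; right; right; left
    refine ⟨rfl, rfl, Or.inr ⟨?_, ?_, rfl, ?_⟩⟩ <;> simp only <;> omega
  have hrow : ∀ q < 8, Relation.ReflTransGen (Stp n k T x y (8 + c, s)) (2, 8 + c, s, 0)
      (c, q, s, ps n x y q s) := by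
    intro q
    induction q with
    | zero => intro _; exact Relation.ReflTransGen.single hstart
    | succ q ih =>
      intro hq
      refine (ih (by omega)).tail ⟨?_, hmem _ hq, hkey _⟩
      unfold Arc
      have h3 := hr q
      have h4 := hr (q + 1)
      right; left
      exact ⟨hc, rfl, rfl, rfl, h3, h4, hRR q (by omega)⟩
  refine (hrow 7 (by omega)).tail ⟨?_, ⟨h1, h2, Or.inr ⟨Or.inr rfl, by simp only; omega, rfl⟩⟩, ?_⟩
  · unfold Arc
    have h3 := hr 7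
    right; right; right; right
    refine ⟨hc, rfl, Or.inr ⟨?_, ?_, rfl, rfl, h3.1, h3.2⟩⟩ <;> simp only <;> omega
  · unfold key zs
    simp only
    rw [if_pos (by omega), if_neg (by omega), if_neg (by omega)]

theorem test_path (hx : ∀ i < k, x i < n) (hy : ∀ i < k, y i < n) {q : ℕ} (hq : q < 8)
    {s : ℕ × ℕ} (h1 : s.1 < k) (h2 : s.2 < k) :
    Relation.ReflTransGen (Stp n k T x y (q, zs k q s)) (2, q, s, 0) (3, q, s, 0) := by
  have hr := ps_range hx hy h1 h2 q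
  obtain ⟨hz1, hz2⟩ := zs_lt (q := q) h1 h2
  set m := ps n x y q s with hm
  have hY : ∀ p, p < m → Relation.ReflTransGen (Stp n k T x y (q, zs k q s)) (2, q, s, 0)
      (q % 2, q, s, p) := by
    intro p
    induction p with
    | zero =>
      intro h0
      refine Relation.ReflTransGen.single ⟨?_, ⟨h1, h2, Or.inl ⟨by simp only; omega, hq,
        by simp⟩⟩, ?_⟩
      · unfold Arc
        right; right; right; left
        exact ⟨rfl, rfl, Or.inl ⟨hq, rfl, rfl, rfl⟩⟩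
      · unfold key
        simp only
        rw [if_neg (by omega), ← hm, if_neg (by omega), if_pos (by omega)]
    | succ p ih =>
      intro h0
      refine (ih (by omega)).tail ⟨?_, ⟨h1, h2, Or.inl ⟨by simp only; omega, hq,
        by simp only; omega⟩⟩, ?_⟩
      · unfold Arc
        left
        exact ⟨by simp only; omega, rfl, rfl, rfl, rfl⟩
      · unfold key
        simp only
        rw [if_neg (by omega), ← hm, if_neg (by omega), if_pos (by omega)]
  have hkZ : ∀ p, m < p → key n k x y (1 - q % 2, q, zs k q s, p) = (q, zs k q s) := by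
    intro p hp
    unfold key
    simp only
    rw [ps_zs, if_neg (by omega), ← hm, if_neg (by omega), if_neg (by omega)]
  have hZ : ∀ r, m + 1 + r ≤ n + 1 → Relation.ReflTransGen (Stp n k T x y (q, zs k q s))
      (2, q, s, 0) (1 - q % 2, q, zs k q s, m + 1 + r) := by
    intro r
    induction r with
    | zero =>
      intro h0
      refine (hY (m - 1) (by omega)).tail ⟨?_, ⟨hz1, hz2, Or.inl ⟨by simp only; omega, hq,
        by simp only; omega⟩⟩, hkZ _ (by omega)⟩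
      unfold Arc
      right; right; left
      refine ⟨?_, ?_, rfl, ?_, rfl, ?_⟩ <;> simp only <;> omega
    | succ r ih =>
      intro h0
      refine (ih (by omega)).tail ⟨?_, ⟨hz1, hz2, Or.inl ⟨by simp only; omega, hq,
        by simp only; omega⟩⟩, hkZ _ (by omega)⟩
      unfold Arc
      left
      exact ⟨by simp only; omega, rfl, rfl, rfl, rfl⟩
  have hend := hZ (n - m) (by omega)
  refine hend.tail ⟨?_, ⟨h1, h2, Or.inr ⟨Or.inr rfl, by simp only; omega, rfl⟩⟩, ?_⟩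
  · unfold Arc
    right; right; right; right
    refine ⟨?_, rfl, Or.inl ⟨hq, ?_, rfl, rfl, ?_⟩⟩ <;> simp only <;> omega
  · unfold key
    simp only
    rw [if_pos (by omega)]

theorem zs_inj {q : ℕ} {s s' : ℕ × ℕ} (h1 : s.1 < k) (h2 : s.2 < k) (h1' : s'.1 < k)
    (h2' : s'.2 < k) (h : zs k q s = zs k q s') : s = s' := by
  have key : ∀ a b : ℕ, a < k → b < k → (a + 1) % k = (b + 1) % k → a = b := by
    intro a b ha hb hab
    rcases Nat.lt_or_ge (a + 1) k with h3 | h3 <;> rcases Nat.lt_or_ge (b + 1) k with h4 | h4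
    · rw [Nat.mod_eq_of_lt h3, Nat.mod_eq_of_lt h4] at hab; omega
    · rw [Nat.mod_eq_of_lt h3, show b + 1 = k by omega, Nat.mod_self] at hab; omega
    · rw [Nat.mod_eq_of_lt h4, show a + 1 = k by omega, Nat.mod_self] at hab; omega
    · omega
  obtain ⟨i, j⟩ := s
  obtain ⟨i', j'⟩ := s'
  unfold zs at h
  simp only at h1 h2 h1' h2'
  split_ifs at h
  · simp only [Prod.mk.injEq] at h
    rw [h.1, key _ _ h2 h2' h.2]
  · simp only [Prod.mk.injEq] at h
    rw [h.2, key _ _ h1 h1' h.1]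
  · exact h

variable {V : Type*} {A : V → V → Prop} {φ : V → Cd}

/-- Lifting a walk of codes to the digraph. -/
theorem Lay.lift (h : Lay A φ n k T) {o : ℕ × (ℕ × ℕ)} {d e : Cd}
    (hr : Relation.ReflTransGen (Stp n k T x y o) d e) {u : V} (hu : φ u = d) :
    ∃ w : List V, (u :: w).IsChain A ∧ (∀ v ∈ w, key n k x y (φ v) = o) ∧
      ∃ v, φ v = e ∧ (u :: w).getLast? = some v := by
  induction hr using Relation.ReflTransGen.head_induction_on generalizing u with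
  | refl => exact ⟨[], List.isChain_singleton _, by simp, u, hu, rfl⟩
  | @head a b hab _ ih =>
    obtain ⟨v, hv⟩ := h.surj b hab.2.1
    obtain ⟨w, hw1, hw2, t, ht1, ht2⟩ := ih hv
    refine ⟨v :: w, List.IsChain.cons_cons ?_ hw1, ?_, t, ht1, ?_⟩
    · rw [h.arc, hu, hv]
      exact hab.1
    · intro v' hv'
      rcases List.mem_cons.1 hv' with rfl | hv'
      · rw [hv]; exact hab.2.2
      · exact hw2 v' hv'
    · rw [List.getLast?_cons_cons]
      exact ht2

theorem Lay.complete (h : Lay A φ n k T) (hx : ∀ i < k, x i < n) (hy : ∀ i < k, y i < n)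
    (hT : ∀ i < k, ∀ j < k, T i j (x i) (y j) = true) : Linked A (Prs φ k) := by
  have hpath : ∀ (e : ℕ) (s : ℕ × ℕ), e < 10 → s.1 < k → s.2 < k →
      Relation.ReflTransGen (Stp n k T x y (e, zs k e s)) (2, e, s, 0) (3, e, s, 0) := by
    intro e s he h1 h2
    by_cases h8 : e < 8
    · exact test_path hx hy h8 h1 h2
    · obtain ⟨c, rfl⟩ := Nat.exists_eq_add_of_le (Nat.le_of_not_lt h8)
      have : zs k (8 + c) s = s := by
        unfold zs
        rw [if_neg (by omega), if_neg (by omega)]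
      rw [this]
      exact bundle_path hx hy hT (by omega) h1 h2
  have hex : ∀ (e : ℕ) (s : ℕ × ℕ), ∃ w : List V, e < 10 → s.1 < k → s.2 < k →
      w.IsChain A ∧ (∀ v ∈ w, key n k x y (φ v) = (e, zs k e s)) ∧
      (∃ u, φ u = (2, e, s, 0) ∧ w.head? = some u) ∧
      (∃ u, φ u = (3, e, s, 0) ∧ w.getLast? = some u) := by
    intro e s
    by_cases hh : e < 10 ∧ s.1 < k ∧ s.2 < k
    · obtain ⟨he, h1, h2⟩ := hh
      obtain ⟨u, hu⟩ := h.surj (2, e, s, 0) ⟨h1, h2, Or.inr ⟨Or.inl rfl, he, rfl⟩⟩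
      obtain ⟨w, hw1, hw2, v, hv1, hv2⟩ := h.lift (hpath e s he h1 h2) hu
      refine ⟨u :: w, fun _ _ _ => ⟨hw1, ?_, ⟨u, hu, rfl⟩, ⟨v, hv1, hv2⟩⟩⟩
      intro v' hv'
      rcases List.mem_cons.1 hv' with rfl | hv'
      · rw [hu]
        unfold key
        simp only
        rw [if_pos (by omega)]
      · exact hw2 v' hv'
    · exact ⟨[], fun a b c => absurd ⟨a, b, c⟩ hh⟩
  choose w hw using hex
  refine ⟨{P | ∃ (e : ℕ) (s : ℕ × ℕ), (e < 10 ∧ s.1 < k ∧ s.2 < k) ∧ P = w e s}, ?_, ?_, ?_⟩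
  · rintro P ⟨e, s, ⟨he, h1, h2⟩, rfl⟩
    obtain ⟨hw1, -, ⟨u, -, hu⟩, -⟩ := hw e s he h1 h2
    refine ⟨?_, hw1, nodup_of_chain (pot := fun u => pot n (φ u)) (fun _ _ h3 => h.pot_lt h3)
      hw1⟩
    intro h0
    rw [h0] at hu
    simp at hu
  · rintro P ⟨e, s, ⟨he, h1, h2⟩, rfl⟩ Q ⟨e', s', ⟨he', h1', h2'⟩, rfl⟩ hne v hv hv'
    apply hne
    have h3 := (hw e s he h1 h2).2.1 v hv
    have h4 := (hw e' s' he' h1' h2').2.1 v hv'
    rw [h3] at h4
    obtain ⟨rfl, h5⟩ := Prod.ext_iff.1 h4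
    simp only at h5
    rw [zs_inj h1 h2 h1' h2' h5]
  · rintro ⟨u, v⟩ ⟨e, s, he, h1, h2, hu, hv⟩
    obtain ⟨-, -, ⟨u', hu1, hu2⟩, ⟨v', hv1, hv2⟩⟩ := hw e s he h1 h2
    refine ⟨w e s, ⟨e, s, ⟨he, h1, h2⟩, rfl⟩, ?_, ?_⟩
    · rw [hu2, h.inj (hu1.trans hu.symm)]
    · rw [hv2, h.inj (hv1.trans hv.symm)]

theorem Lay.linked_iff (h : Lay A φ n k T) : Linked A (Prs φ k) ↔
    ∃ x y : ℕ → ℕ, (∀ i < k, x i < n) ∧ (∀ i < k, y i < n) ∧
      ∀ i < k, ∀ j < k, T i j (x i) (y j) = true := by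
  refine ⟨h.sound, ?_⟩
  rintro ⟨x, y, hx, hy, hT⟩
  exact h.complete hx hy hT

end

end Q224.EA
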