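import Mathlib

/-!
# The levelled digraph of a grid tiling instance

A vertex is coded by `(c, q, (i, j), p)`: for `c = 0, 1` it is the `p`-th vertex of the track number
`q < 8` of the (first, second) bundle of the cell `(i, j)`; for `c = 2` a source, for `c = 3` a sink
(`q < 8`: of the test number `q`, `q = 8, 9`: of the first and second bundle).
-/

set_option autoImplicit false

namespace Q224.EA

abbrev Cd := ℕ × ℕ × (ℕ × ℕ) × ℕ

/-- The slot of the second track of a test. -/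
def zs (k q : ℕ) (s : ℕ × ℕ) : ℕ × ℕ :=
  if q = 1 ∨ q = 3 then (s.1, (s.2 + 1) % k) else
    if q = 5 ∨ q = 7 then ((s.1 + 1) % k, s.2) else s

/-- The relation of the row arcs from the track `q` to the track `q + 1`. -/
def RR (n : ℕ) (T : ℕ → ℕ → ℕ → ℕ → Bool) (c q : ℕ) (s : ℕ × ℕ) (p p' : ℕ) : Prop :=
  (q % 2 = 0 ∧ p' = p) ∨ ((q = 1 ∨ q = 5) ∧ p + p' = n + 1) ∨
    (q = 3 ∧ (c = 1 ∨ T s.1 s.2 (n - p) (p' - 1) = true))

/-- The arcs. -/
def Arc (n k : ℕ) (T : ℕ → ℕ → ℕ → ℕ → Bool) (d e : Cd) : Prop :=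
  (d.1 < 2 ∧ e.1 = d.1 ∧ e.2.1 = d.2.1 ∧ e.2.2.1 = d.2.2.1 ∧ e.2.2.2 = d.2.2.2 + 1) ∨
  (d.1 < 2 ∧ e.1 = d.1 ∧ e.2.1 = d.2.1 + 1 ∧ e.2.2.1 = d.2.2.1 ∧
    (1 ≤ d.2.2.2 ∧ d.2.2.2 ≤ n) ∧ (1 ≤ e.2.2.2 ∧ e.2.2.2 ≤ n) ∧
      RR n T d.1 d.2.1 d.2.2.1 d.2.2.2 e.2.2.2) ∨
  (d.1 < 2 ∧ e.1 + d.1 = 1 ∧ e.2.1 = d.2.1 ∧ (d.1 + d.2.1) % 2 = 0 ∧
    e.2.2.1 = zs k d.2.1 d.2.2.1 ∧ e.2.2.2 = d.2.2.2 + 2) ∨
  (d.1 = 2 ∧ e.2.2.1 = d.2.2.1 ∧ ((d.2.1 < 8 ∧ e.1 = d.2.1 % 2 ∧ e.2.1 = d.2.1 ∧ e.2.2.2 = 0) ∨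
    (8 ≤ d.2.1 ∧ e.1 + 8 = d.2.1 ∧ e.2.1 = 0 ∧ 1 ≤ e.2.2.2 ∧ e.2.2.2 ≤ n))) ∨
  (d.1 < 2 ∧ e.1 = 3 ∧ ((e.2.1 < 8 ∧ d.1 + e.2.1 % 2 = 1 ∧ d.2.1 = e.2.1 ∧
      d.2.2.1 = zs k e.2.1 e.2.2.1 ∧ d.2.2.2 = n + 1) ∨
    (8 ≤ e.2.1 ∧ d.1 + 8 = e.2.1 ∧ d.2.1 = 7 ∧ d.2.2.1 = e.2.2.1 ∧ 1 ≤ d.2.2.2 ∧
      d.2.2.2 ≤ n)))

/-- The vertices. -/
def Mem (n k : ℕ) (d : Cd) : Prop :=
  d.2.2.1.1 < k ∧ d.2.2.1.2 < k ∧ ((d.1 < 2 ∧ d.2.1 < 8 ∧ d.2.2.2 ≤ n + 1) ∨
    ((d.1 = 2 ∨ d.1 = 3) ∧ d.2.1 < 10 ∧ d.2.2.2 = 0))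

/-- The levels. -/
def lev (d : Cd) : ℕ :=
  if d.1 < 2 then 2 * d.2.1 + (d.1 + d.2.1) % 2 + 1 else if d.1 = 3 then 17 else 0

/-- A potential. -/
def pot (n : ℕ) (d : Cd) : ℕ := lev d * (n + 3) + d.2.2.2

section

variable {n k : ℕ} {T : ℕ → ℕ → ℕ → ℕ → Bool}

theorem lev_le {d : Cd} (hd : Mem n k d) : lev d ≤ 17 := by
  unfold lev
  have := hd.2.2
  split_ifs <;> omega

theorem lev_pot {d e : Cd} (h : Arc n k T d e) (hd : Mem n k d) (he : Mem n k e) :
    (lev d = lev e ∧ d.1 < 2 ∧ e = (d.1, d.2.1, d.2.2.1, d.2.2.2 + 1)) ∨ lev d < lev e := by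
  obtain ⟨c, q, s, p⟩ := d
  obtain ⟨c', q', s', p'⟩ := e
  obtain ⟨-, -, hd⟩ := hd
  obtain ⟨-, -, he⟩ := he
  unfold Arc at h
  unfold lev
  simp only at *
  rcases h with h | h | h | h | h
  · obtain ⟨h1, rfl, rfl, rfl, rfl⟩ := h
    exact Or.inl ⟨rfl, h1, rfl⟩
  · right
    obtain ⟨h1, rfl, rfl, -⟩ := h
    rw [if_pos h1, if_pos h1]
    omega
  · right
    obtain ⟨h1, h2, rfl, h3, -⟩ := h
    rw [if_pos h1, if_pos (by omega)]
    omega
  · right
    obtain ⟨rfl, -, h⟩ := h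
    rcases h with h | h
    · rw [if_neg (by omega), if_neg (by omega), if_pos (by omega)]
      omega
    · rw [if_neg (by omega), if_neg (by omega), if_pos (by omega)]
      omega
  · right
    obtain ⟨h1, rfl, h⟩ := h
    rw [if_pos h1, if_neg (by omega), if_pos rfl]
    omega

theorem lev_mono' {d e : Cd} (h : Arc n k T d e) (hd : Mem n k d) (he : Mem n k e) :
    lev d ≤ lev e := by
  rcases lev_pot h hd he with h | h
  · exact h.1.le
  · exact h.le

theorem Mem.p_le {d : Cd} (hd : Mem n k d) : d.2.2.2 ≤ n + 1 := by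
  have := hd.2.2
  omega

theorem pot_lt_of_lev {d e : Cd} (hd : Mem n k d) (h : lev d < lev e) : pot n d < pot n e := by
  unfold pot
  have h1 := hd.p_le
  have h2 : (lev d + 1) * (n + 3) ≤ lev e * (n + 3) := Nat.mul_le_mul_right _ h
  rw [Nat.add_mul] at h2
  omega

theorem pot_lt {d e : Cd} (h : Arc n k T d e) (hd : Mem n k d) (he : Mem n k e) :
    pot n d < pot n e := by
  rcases lev_pot h hd he with ⟨h1, -, h3⟩ | h
  · unfold pot
    rw [h1, h3]
    exact Nat.lt_succ_self _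
  · exact pot_lt_of_lev hd h

theorem lev_unique {d e e' : Cd} (h : Arc n k T d e) (h' : Arc n k T d e') (hd : Mem n k d)
    (he : Mem n k e) (he' : Mem n k e') (h1 : lev d = lev e) (h2 : lev d = lev e') : e = e' := by
  rcases lev_pot h hd he with ⟨-, -, h3⟩ | h
  · rcases lev_pot h' hd he' with ⟨-, -, h3'⟩ | h'
    · rw [h3, h3']
    · omega
  · omega

/-! ### Soundness -/

/-- The family of the vertex sets of the paths of a linkage. -/
structure Fam (n k : ℕ) (T : ℕ → ℕ → ℕ → ℕ → Bool) (P : ℕ → ℕ × ℕ → Cd → Prop) : Prop where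
  mem : ∀ e s d, P e s d → Mem n k d
  start : ∀ e s, e < 10 → s.1 < k → s.2 < k → P e s (2, e, s, 0)
  stop : ∀ e s, e < 10 → s.1 < k → s.2 < k → P e s (3, e, s, 0)
  next : ∀ e s, e < 10 → s.1 < k → s.2 < k → ∀ d, P e s d → d ≠ (3, e, s, 0) →
    ∃ d', P e s d' ∧ Arc n k T d d'
  back : ∀ e s, e < 10 → s.1 < k → s.2 < k → ∃ z, P e s z ∧ Arc n k T z (3, e, s, 0) ∧
    ∀ d, P e s d → d = (3, e, s, 0) ∨ pot n d ≤ pot n z
  disj : ∀ e s e' s' d, e < 10 → s.1 < k → s.2 < k → e' < 10 → s'.1 < k → s'.2 < k →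
    P e s d → P e' s' d → e = e' ∧ s = s'

variable {P : ℕ → ℕ × ℕ → Cd → Prop}

/-- The path of a test. -/
theorem Fam.test (F : Fam n k T P) {q : ℕ} (hq : q < 8) {s : ℕ × ℕ} (h1 : s.1 < k)
    (h2 : s.2 < k) : ∃ m, m + 2 ≤ n + 1 ∧ (∀ p ≤ m, P q s (q % 2, q, s, p)) ∧
      ∀ p, m + 2 ≤ p → p ≤ n + 1 → P q s (1 - q % 2, q, zs k q s, p) := by
  obtain ⟨z, hz1, hz2, hz3⟩ := F.back q s (by omega) h1 h2
  -- the last vertex before the sink
  have hz : z = (1 - q % 2, q, zs k q s, n + 1) := by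
    obtain ⟨c, q', s', p⟩ := z
    unfold Arc at hz2
    simp only at hz2
    rcases hz2 with h | h | h | h | h
    · omega
    · omega
    · omega
    · omega
    · obtain ⟨h3, -, h | h⟩ := h
      · obtain ⟨-, h4, h5, h6, h7⟩ := h
        rw [h5, h6, h7]
        have : c = 1 - q % 2 := by omega
        rw [this]
      · omega
  subst hz
  have hlz : lev ((1 - q % 2, q, zs k q s, n + 1) : Cd) = 2 * q + 2 := by
    unfold lev
    rw [if_pos (show (1 - q % 2) < 2 by omega)]
    simp only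
    omega
  have hlow : ∀ d, P q s d → d.1 < 2 → lev d ≤ 2 * q + 2 := by
    intro d hd hd1
    rcases hz3 d hd with h | h
    · rw [h] at hd1; simp at hd1
    · by_contra hc
      push Not at hc
      have := pot_lt_of_lev (F.mem _ _ _ hz1) (show lev _ < lev d by rw [hlz]; exact hc)
      omega
  -- steps on the first track
  have stepY : ∀ p, P q s (q % 2, q, s, p) → P q s (q % 2, q, s, p + 1) ∨
      P q s (1 - q % 2, q, zs k q s, p + 2) := by
    intro p hp
    obtain ⟨⟨c', q', s', p'⟩, hd1, hd2⟩ := F.next q s (by omega) h1 h2 _ hp (by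
      intro h
      have := congrArg Prod.fst h
      simp only at this
      omega)
    unfold Arc at hd2
    simp only at hd2
    rcases hd2 with h | h | h | h | h
    · obtain ⟨-, rfl, rfl, rfl, rfl⟩ := h
      exact Or.inl hd1
    · exfalso
      have h5 := hlow _ hd1 (by simp only; omega)
      unfold lev at h5
      simp only at h5
      rw [if_pos (by omega)] at h5
      omega
    · obtain ⟨-, h3, rfl, h4, rfl, rfl⟩ := h
      have : c' = 1 - q' % 2 := by omega
      rw [this] at hd1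
      exact Or.inr hd1
    · omega
    · exfalso
      obtain ⟨-, rfl, h | h⟩ := h
      · omega
      · obtain ⟨h3, h4, h5, rfl, -⟩ := h
        have hm := F.mem _ _ _ hd1
        have hp' : p' = 0 := by
          have := hm.2.2
          simp only at this
          omega
        subst hp'
        have hq' : q' < 10 := by
          have := hm.2.2
          simp only at this
          omega
        have := (F.disj q s q' s _ (by omega) h1 h2 hq' h1 h2 hd1 (F.stop q' s hq' h1 h2)).1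
        omega
  have stepZ : ∀ p, p ≤ n → P q s (1 - q % 2, q, zs k q s, p) →
      P q s (1 - q % 2, q, zs k q s, p + 1) := by
    intro p hpn hp
    obtain ⟨⟨c', q', s', p'⟩, hd1, hd2⟩ := F.next q s (by omega) h1 h2 _ hp (by
      intro h
      have := congrArg Prod.fst h
      simp only at this
      omega)
    unfold Arc at hd2
    simp only at hd2
    rcases hd2 with h | h | h | h | h
    · obtain ⟨-, rfl, rfl, rfl, rfl⟩ := h
      exact hd1
    · exfalso
      have h5 := hlow _ hd1 (by simp only; omega)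
      unfold lev at h5
      simp only at h5
      rw [if_pos (by omega)] at h5
      omega
    · omega
    · omega
    · exfalso
      obtain ⟨-, rfl, h | h⟩ := h
      · omega
      · obtain ⟨h3, h4, h5, h6, -⟩ := h
        have hm := F.mem _ _ _ hd1
        have hp' : p' = 0 := by
          have := hm.2.2
          simp only at this
          omega
        subst hp'
        have hq' : q' < 10 := by
          have := hm.2.2
          simp only at this
          omega
        have := (F.disj q s q' s' _ (by omega) h1 h2 hq' hm.1 hm.2.1 hd1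
          (F.stop q' s' hq' hm.1 hm.2.1)).1
        omega
  -- the start
  have h0 : P q s (q % 2, q, s, 0) := by
    obtain ⟨⟨c', q', s', p'⟩, hd1, hd2⟩ := F.next q s (by omega) h1 h2 _
      (F.start q s (by omega) h1 h2) (by
      intro h
      have := congrArg Prod.fst h
      simp at this)
    unfold Arc at hd2
    simp only at hd2
    rcases hd2 with h | h | h | h | h
    · omega
    · omega
    · omega
    · obtain ⟨-, rfl, h | h⟩ := h
      · obtain ⟨-, rfl, rfl, rfl⟩ := h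
        exact hd1
      · omega
    · omega
  -- the last vertex of the first track before leaving it
  classical
  have hex : ∃ m, ¬ P q s (q % 2, q, s, m + 1) := by
    by_contra hc
    push Not at hc
    have := (F.mem _ _ _ (hc (n + 1))).p_le
    simp only at this
    omega
  set m := Nat.find hex with hm
  have hm1 : ¬ P q s (q % 2, q, s, m + 1) := Nat.find_spec hex
  have hm2 : ∀ p ≤ m, P q s (q % 2, q, s, p) := by
    intro p hp
    cases p with
    | zero => exact h0
    | succ p => exact not_not.1 (Nat.find_min hex (show p < Nat.find hex by omega))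
  have hm3 : P q s (1 - q % 2, q, zs k q s, m + 2) := by
    rcases stepY m (hm2 m le_rfl) with h | h
    · exact absurd h hm1
    · exact h
  refine ⟨m, (F.mem _ _ _ hm3).p_le, hm2, fun p hp1 hp2 => ?_⟩
  induction p, hp1 using Nat.le_induction with
  | base => exact hm3
  | succ p hp ih => exact stepZ p (by omega) (ih (by omega))

/-- The positions at which a bundle path leaves a track. -/
theorem Fam.out (F : Fam n k T P) {c : ℕ} (hc : c < 2) {s : ℕ × ℕ} (h1 : s.1 < k)
    (h2 : s.2 < k) {q : ℕ} (hq : q < 8) : ∀ (r a : ℕ), n + 1 - a = r →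
      P (8 + c) s (c, q, s, a) → ∃ b, a ≤ b ∧ b ≤ n ∧ P (8 + c) s (c, q, s, b) ∧
        (q < 7 → ∃ a', 1 ≤ a' ∧ a' ≤ n ∧ P (8 + c) s (c, q + 1, s, a') ∧
          RR n T c q s b a') := by
  intro r
  induction r using Nat.strong_induction_on with
  | _ r ih =>
    intro a hr ha
    obtain ⟨⟨c', q', s', p'⟩, hd1, hd2⟩ := F.next (8 + c) s (by omega) h1 h2 _ ha (by
      intro h
      have := congrArg Prod.fst h
      simp only at this
      omega)
    have hm := F.mem _ _ _ hd1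
    have hd2' := hd2
    unfold Arc at hd2
    simp only at hd2
    rcases hd2 with h | h | h | h | h
    · obtain ⟨-, rfl, rfl, rfl, rfl⟩ := h
      have := hm.p_le
      simp only at this
      obtain ⟨b, hb1, hb2, hb3⟩ := ih (n + 1 - (a + 1)) (by omega) (a + 1) rfl hd1
      exact ⟨b, by omega, hb2, hb3⟩
    · obtain ⟨-, rfl, rfl, rfl, h3, h4, h5⟩ := h
      exact ⟨a, le_rfl, h3.2, ha, fun _ => ⟨p', h4.1, h4.2, hd1, h5⟩⟩
    · exfalso
      obtain ⟨-, h3, rfl, h4, rfl, rfl⟩ := h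
      obtain ⟨m, -, hm1, hm2⟩ := F.test hq h1 h2
      have hcq : c = q' % 2 := by omega
      have hc'q : c' = 1 - q' % 2 := by omega
      by_cases ham : a ≤ m
      · have h5 := hm1 a ham
        rw [← hcq] at h5
        have := (F.disj _ _ _ _ _ (by omega) h1 h2 (by omega) h1 h2 ha h5).1
        omega
      · have hp := hm.p_le
        simp only at hp
        have h5 := hm2 (a + 2) (by omega) hp
        rw [← hc'q] at h5
        have := (F.disj _ _ _ _ _ (by omega) h1 h2 (by omega) h1 h2 hd1 h5).1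
        omega
    · omega
    · obtain ⟨-, rfl, h | h⟩ := h
      · exfalso
        have hp' : p' = 0 := by
          have := hm.2.2
          simp only at this
          omega
        subst hp'
        have := (F.disj _ _ q' s' _ (by omega) h1 h2 (by omega) hm.1 hm.2.1 hd1
          (F.stop q' s' (by omega) hm.1 hm.2.1)).1
        omega
      · obtain ⟨h3, h4, h5, rfl, h6, h7⟩ := h
        exact ⟨a, le_rfl, h7, ha, fun h8 => by omega⟩

/-- The first track of a bundle path. -/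
theorem Fam.enter (F : Fam n k T P) {c : ℕ} (hc : c < 2) {s : ℕ × ℕ} (h1 : s.1 < k)
    (h2 : s.2 < k) : ∃ a, 1 ≤ a ∧ a ≤ n ∧ P (8 + c) s (c, 0, s, a) := by
  obtain ⟨⟨c', q', s', p'⟩, hd1, hd2⟩ := F.next (8 + c) s (by omega) h1 h2 _
    (F.start (8 + c) s (by omega) h1 h2) (by
      intro h
      have := congrArg Prod.fst h
      simp at this)
  unfold Arc at hd2
  simp only at hd2
  rcases hd2 with h | h | h | h | h
  · omega
  · omega
  · omega
  · obtain ⟨-, rfl, h | h⟩ := h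
    · omega
    · obtain ⟨-, h3, rfl, h4, h5⟩ := h
      have : c' = c := by omega
      subst this
      exact ⟨p', h4, h5, hd1⟩
  · omega

/-- The whole course of a bundle path. -/
theorem Fam.course (F : Fam n k T P) {c : ℕ} (hc : c < 2) {s : ℕ × ℕ} (h1 : s.1 < k)
    (h2 : s.2 < k) : ∃ a b : ℕ → ℕ, (∀ q < 8, 1 ≤ a q ∧ a q ≤ b q ∧ b q ≤ n ∧
      P (8 + c) s (c, q, s, a q) ∧ P (8 + c) s (c, q, s, b q)) ∧
      ∀ q < 7, RR n T c q s (b q) (a (q + 1)) := by
  have key : ∀ m, m < 8 → ∃ a b : ℕ → ℕ, (∀ q ≤ m, 1 ≤ a q ∧ a q ≤ b q ∧ b q ≤ n ∧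
      P (8 + c) s (c, q, s, a q) ∧ P (8 + c) s (c, q, s, b q)) ∧
      (∀ q < m, RR n T c q s (b q) (a (q + 1))) ∧
      (m < 7 → ∃ a', 1 ≤ a' ∧ a' ≤ n ∧ P (8 + c) s (c, m + 1, s, a') ∧
          RR n T c m s (b m) a') := by
    intro m
    induction m with
    | zero =>
      intro _
      obtain ⟨a, ha1, ha2, ha3⟩ := F.enter hc h1 h2
      obtain ⟨b, hb1, hb2, hb3, hb4⟩ := F.out hc h1 h2 (q := 0) (by omega) _ a rfl ha3
      refine ⟨fun _ => a, fun _ => b, ?_, fun q hq => absurd hq (by omega), fun _ =>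
        hb4 (by omega)⟩
      intro q hq
      obtain rfl : q = 0 := by omega
      exact ⟨ha1, hb1, hb2, ha3, hb3⟩
    | succ m ih =>
      intro hm
      obtain ⟨a, b, h3, h4, h5⟩ := ih (by omega)
      obtain ⟨a', ha1, ha2, ha3, ha4⟩ := h5 (by omega)
      obtain ⟨b', hb1, hb2, hb3, hb4⟩ := F.out hc h1 h2 (q := m + 1) hm _ a' rfl ha3
      refine ⟨Function.update a (m + 1) a', Function.update b (m + 1) b', ?_, ?_, ?_⟩
      · intro q hq
        by_cases hqm : q = m + 1
        · subst hqm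
          simp only [Function.update_self]
          exact ⟨ha1, hb1, hb2, ha3, hb3⟩
        · rw [Function.update_of_ne hqm, Function.update_of_ne hqm]
          exact h3 q (by omega)
      · intro q hq
        rw [Function.update_of_ne (show q ≠ m + 1 by omega)]
        by_cases hqm : q = m
        · subst hqm
          rw [Function.update_self]
          exact ha4
        · rw [Function.update_of_ne (show q + 1 ≠ m + 1 by omega)]
          exact h4 q (by omega)
      · intro h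
        rw [Function.update_self]
        exact hb4 h
  obtain ⟨a, b, h3, h4, -⟩ := key 7 (by omega)
  exact ⟨a, b, fun q hq => h3 q (by omega), h4⟩

end

end Q224.EA
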