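import Pool.Agent.Q224.EA.Lay
import Pool.Agent.Q224.ED.Red

/-!
# The reduction from the clique problem
-/

set_option autoImplicit false

namespace Q224.EA

open Pool.Agent.H633R2 Q224.RD
open Q224.ED (SM clique_iff clique_min)

/-- The digraph of a 0/1 matrix. -/
def arcOf (M : List (List Bool)) (u v : Fin M.length) : Prop := u ≠ v ∧ entry M u v = true

/-- Linkage: `x.1` is the matrix of the digraph, `x.2` the list of the pairs. -/
def HasLinkage (x : List (List Bool) × List (ℕ × ℕ)) : Prop :=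
  ∃ L : Set (List (Fin x.1.length)), (∀ P ∈ L, IsPath (arcOf x.1) P) ∧
    (∀ P ∈ L, ∀ Q ∈ L, P ≠ Q → P.Disjoint Q) ∧
    ∀ st ∈ x.2, ∃ P ∈ L, P.head?.map Fin.val = some st.1 ∧ P.getLast?.map Fin.val = some st.2

/-- The relation of the row arcs. -/
def RRb (n : ℕ) (T : ℕ → ℕ → ℕ → ℕ → Bool) (c q : ℕ) (s : ℕ × ℕ) (p p' : ℕ) : Bool :=
  (decide (q % 2 = 0) && decide (p' = p)) || (((decide (q = 1) || decide (q = 5)) &&
    decide (p + p' = n + 1)) ||
    (decide (q = 3) && (decide (c = 1) || T s.1 s.2 (n - p) (p' - 1))))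

theorem RRb_iff {n : ℕ} {T : ℕ → ℕ → ℕ → ℕ → Bool} {c q : ℕ} {s : ℕ × ℕ} {p p' : ℕ} :
    RRb n T c q s p p' = true ↔ RR n T c q s p p' := by
  unfold RRb RR
  simp only [Bool.or_eq_true, Bool.and_eq_true, decide_eq_true_eq]

/-- The slots. -/
def zsb (k q : ℕ) (s : ℕ × ℕ) : ℕ × ℕ :=
  if q = 1 then (s.1, (s.2 + 1) % k) else if q = 3 then (s.1, (s.2 + 1) % k) else
    if q = 5 then ((s.1 + 1) % k, s.2) else if q = 7 then ((s.1 + 1) % k, s.2) else s

theorem zsb_eq (k q : ℕ) (s : ℕ × ℕ) : zsb k q s = zs k q s := by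
  unfold zsb zs
  split_ifs <;> first | rfl | omega

/-- Track arcs. -/
def rel1 (d e : Cd) : Bool :=
  decide (d.1 < 2) && (decide (e.1 = d.1) && (decide (e.2.1 = d.2.1) &&
    (decide (e.2.2.1 = d.2.2.1) && decide (e.2.2.2 = d.2.2.2 + 1))))

/-- Row arcs. -/
def rel2 (n : ℕ) (T : ℕ → ℕ → ℕ → ℕ → Bool) (d e : Cd) : Bool :=
  decide (d.1 < 2) && (decide (e.1 = d.1) && (decide (e.2.1 = d.2.1 + 1) &&
    (decide (e.2.2.1 = d.2.2.1) && ((decide (1 ≤ d.2.2.2) && decide (d.2.2.2 ≤ n)) &&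
      ((decide (1 ≤ e.2.2.2) && decide (e.2.2.2 ≤ n)) &&
      RRb n T d.1 d.2.1 d.2.2.1 d.2.2.2 e.2.2.2)))))

/-- Jumps. -/
def rel3 (k : ℕ) (d e : Cd) : Bool :=
  decide (d.1 < 2) && (decide (e.1 + d.1 = 1) && (decide (e.2.1 = d.2.1) &&
    (decide ((d.1 + d.2.1) % 2 = 0) && (decide (e.2.2.1 = zsb k d.2.1 d.2.2.1) &&
      decide (e.2.2.2 = d.2.2.2 + 2)))))

/-- Arcs from sources. -/
def rel4 (n : ℕ) (d e : Cd) : Bool :=
  decide (d.1 = 2) && (decide (e.2.2.1 = d.2.2.1) &&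
    ((decide (d.2.1 < 8) && (decide (e.1 = d.2.1 % 2) && (decide (e.2.1 = d.2.1) &&
      decide (e.2.2.2 = 0)))) ||
    (decide (8 ≤ d.2.1) && (decide (e.1 + 8 = d.2.1) && (decide (e.2.1 = 0) &&
      (decide (1 ≤ e.2.2.2) && decide (e.2.2.2 ≤ n)))))))

/-- Arcs to sinks. -/
def rel5 (n k : ℕ) (d e : Cd) : Bool :=
  decide (d.1 < 2) && (decide (e.1 = 3) &&
    ((decide (e.2.1 < 8) && (decide (d.1 + e.2.1 % 2 = 1) && (decide (d.2.1 = e.2.1) &&
      (decide (d.2.2.1 = zsb k e.2.1 e.2.2.1) && decide (d.2.2.2 = n + 1))))) ||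
    (decide (8 ≤ e.2.1) && (decide (d.1 + 8 = e.2.1) && (decide (d.2.1 = 7) &&
      (decide (d.2.2.1 = e.2.2.1) && (decide (1 ≤ d.2.2.2) && decide (d.2.2.2 ≤ n))))))))

/-- The arcs. -/
def relB (n k : ℕ) (T : ℕ → ℕ → ℕ → ℕ → Bool) (d e : Cd) : Bool :=
  rel1 d e || (rel2 n T d e || (rel3 k d e || (rel4 n d e || rel5 n k d e)))

theorem relB_iff {n k : ℕ} {T : ℕ → ℕ → ℕ → ℕ → Bool} {d e : Cd} :
    relB n k T d e = true ↔ Arc n k T d e := by
  unfold relB rel1 rel2 rel3 rel4 rel5 Arc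
  simp only [Bool.or_eq_true, Bool.and_eq_true, decide_eq_true_eq, RRb_iff, zsb_eq]

/-- The indices of the pairs. -/
def bs (k : ℕ) : List (ℕ × (ℕ × ℕ)) := List.range 10 ×ˢ (List.range k ×ˢ List.range k)

/-- The vertices on tracks. -/
def trk (n k : ℕ) : List Cd :=
  List.range 2 ×ˢ (List.range 8 ×ˢ ((List.range k ×ˢ List.range k) ×ˢ List.range (n + 2)))

/-- The vertices. -/
def vl (n k : ℕ) : List Cd :=
  (bs k).map (fun x => ((2, x.1, x.2, 0) : Cd)) ++
    ((bs k).map (fun x => ((3, x.1, x.2, 0) : Cd)) ++ trk n k)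

section

variable {n k : ℕ} {T : ℕ → ℕ → ℕ → ℕ → Bool}

theorem length_bs : (bs k).length = 10 * (k * k) := by
  unfold bs
  rw [List.length_product, List.length_product, List.length_range, List.length_range]

theorem mem_bs {x : ℕ × (ℕ × ℕ)} : x ∈ bs k ↔ x.1 < 10 ∧ x.2.1 < k ∧ x.2.2 < k := by
  obtain ⟨a, b, c⟩ := x
  unfold bs
  simp only [List.mem_product, List.mem_range]

theorem nodup_bs : (bs k).Nodup :=
  List.nodup_range.product (List.nodup_range.product List.nodup_range)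

theorem mem_vl {d : Cd} : d ∈ vl n k ↔ Mem n k d := by
  obtain ⟨c, q, ⟨i, j⟩, p⟩ := d
  unfold vl trk Mem
  rw [List.mem_append, List.mem_append, List.mem_map, List.mem_map]
  simp only [mem_bs, List.mem_product, List.mem_range, Prod.mk.injEq, Prod.exists]
  constructor
  · rintro (⟨a, b, c', ⟨h1, h2, h3⟩, rfl, rfl, ⟨rfl, rfl⟩, rfl⟩ |
      ⟨a, b, c', ⟨h1, h2, h3⟩, rfl, rfl, ⟨rfl, rfl⟩, rfl⟩ | h)
    · exact ⟨h2, h3, Or.inr ⟨Or.inl rfl, h1, rfl⟩⟩
    · exact ⟨h2, h3, Or.inr ⟨Or.inr rfl, h1, rfl⟩⟩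
    · exact ⟨h.2.2.1.1, h.2.2.1.2, Or.inl ⟨h.1, h.2.1, by omega⟩⟩
  · rintro ⟨h1, h2, h | ⟨rfl | rfl, h3, rfl⟩⟩
    · exact Or.inr (Or.inr ⟨h.1, h.2.1, ⟨h1, h2⟩, by omega⟩)
    · exact Or.inl ⟨q, i, j, ⟨h3, h1, h2⟩, rfl, rfl, ⟨rfl, rfl⟩, rfl⟩
    · exact Or.inr (Or.inl ⟨q, i, j, ⟨h3, h1, h2⟩, rfl, rfl, ⟨rfl, rfl⟩, rfl⟩)

theorem nodup_vl : (vl n k).Nodup := by
  unfold vl
  rw [List.nodup_append, List.nodup_append]
  refine ⟨nodup_bs.map ?_, ⟨nodup_bs.map ?_, ?_, ?_⟩, ?_⟩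
  · intro a b h
    simp only [Prod.mk.injEq, and_true, true_and] at h
    exact Prod.ext h.1 h.2
  · intro a b h
    simp only [Prod.mk.injEq, and_true, true_and] at h
    exact Prod.ext h.1 h.2
  · exact List.nodup_range.product (List.nodup_range.product
      ((List.nodup_range.product List.nodup_range).product List.nodup_range))
  · intro a ha b hb hab
    subst hab
    rw [List.mem_map] at ha
    obtain ⟨x, -, rfl⟩ := ha
    unfold trk at hb
    simp at hb
  · intro a ha b hb hab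
    subst hab
    rw [List.mem_map] at ha
    obtain ⟨x, -, rfl⟩ := ha
    rw [List.mem_append, List.mem_map] at hb
    rcases hb with ⟨y, -, hy⟩ | hb
    · simp at hy
    · unfold trk at hb
      simp at hb

theorem lay (n k : ℕ) (T : ℕ → ℕ → ℕ → ℕ → Bool) :
    Lay (arcOf (mtxOf (vl n k) (relB n k T))) (phi (vl n k) (relB n k T)) n k T where
  inj := phi_inj nodup_vl _
  mem := fun u => mem_vl.1 (phi_mem _ _ u)
  surj := fun d hd => phi_surj _ (mem_vl.2 hd)
  arc := fun u v => by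
    unfold arcOf
    rw [entry_mtxOf, relB_iff]
    refine ⟨fun h => h.2, fun h => ⟨?_, h⟩⟩
    rintro rfl
    exact lt_irrefl _ (pot_lt h (mem_vl.1 (phi_mem _ _ u)) (mem_vl.1 (phi_mem _ _ u)))

/-- The list of the pairs. -/
def prs (k : ℕ) : List (ℕ × ℕ) :=
  (List.range (10 * (k * k))).map fun r => (r, 10 * (k * k) + r)

theorem phi_src {r : ℕ} (hr : r < (bs k).length) {u : Fin (mtxOf (vl n k) (relB n k T)).length}
    (hu : (u : ℕ) = r) : phi (vl n k) (relB n k T) u = (2, ((bs k)[r]).1, ((bs k)[r]).2, 0) := by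
  unfold phi
  simp only [hu]
  unfold vl
  rw [List.getElem_append_left (by rw [List.length_map]; exact hr), List.getElem_map]

theorem phi_tgt {r : ℕ} (hr : r < (bs k).length) {u : Fin (mtxOf (vl n k) (relB n k T)).length}
    (hu : (u : ℕ) = (bs k).length + r) :
    phi (vl n k) (relB n k T) u = (3, ((bs k)[r]).1, ((bs k)[r]).2, 0) := by
  unfold phi
  simp only [hu]
  unfold vl
  rw [List.getElem_append_right (by rw [List.length_map]; omega)]
  simp only [List.length_map, Nat.add_sub_cancel_left]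
  rw [List.getElem_append_left (by rw [List.length_map]; exact hr), List.getElem_map]

theorem length_vl_ge : (bs k).length + (bs k).length ≤ (mtxOf (vl n k) (relB n k T)).length := by
  rw [mtxOf_length]
  unfold vl
  rw [List.length_append, List.length_append, List.length_map, List.length_map]
  omega

theorem hasLinkage_iff (n k : ℕ) (T : ℕ → ℕ → ℕ → ℕ → Bool) :
    HasLinkage (mtxOf (vl n k) (relB n k T), prs k) ↔
      Linked (arcOf (mtxOf (vl n k) (relB n k T))) (Prs (phi (vl n k) (relB n k T)) k) := by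
  have hlen := length_vl_ge (n := n) (k := k) (T := T)
  have hinj := (lay n k T).inj
  constructor
  · rintro ⟨L, h1, h2, h3⟩
    refine ⟨L, h1, h2, ?_⟩
    rintro ⟨u, v⟩ ⟨e, s, he, hs1, hs2, hu, hv⟩
    simp only at hu hv
    have hmem : ((e, s) : ℕ × (ℕ × ℕ)) ∈ bs k := mem_bs.2 ⟨he, hs1, hs2⟩
    obtain ⟨r, hr, hrs⟩ := List.getElem_of_mem hmem
    have hu' : (u : ℕ) = r := by
      have := hinj (a₁ := u) (a₂ := ⟨r, by omega⟩) (by
        rw [hu, phi_src hr rfl, hrs])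
      rw [this]
    have hv' : (v : ℕ) = (bs k).length + r := by
      have := hinj (a₁ := v) (a₂ := ⟨(bs k).length + r, by omega⟩) (by
        rw [hv, phi_tgt hr rfl, hrs])
      rw [this]
    obtain ⟨P, hP, hP1, hP2⟩ := h3 (r, 10 * (k * k) + r) (by
      unfold prs
      rw [List.mem_map]
      exact ⟨r, List.mem_range.2 (by rw [← length_bs]; exact hr), rfl⟩)
    simp only at hP1 hP2
    rw [← length_bs, ← hv'] at hP2
    rw [← hu'] at hP1
    refine ⟨P, hP, ?_, ?_⟩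
    · rw [Option.map_eq_some_iff] at hP1
      obtain ⟨a, ha, hav⟩ := hP1
      rw [ha, Fin.ext hav]
    · rw [Option.map_eq_some_iff] at hP2
      obtain ⟨a, ha, hav⟩ := hP2
      rw [ha, Fin.ext hav]
  · rintro ⟨L, h1, h2, h3⟩
    refine ⟨L, h1, h2, ?_⟩
    rintro ⟨a, b⟩ hab
    unfold prs at hab
    rw [List.mem_map] at hab
    obtain ⟨r, hr, hrab⟩ := hab
    rw [List.mem_range, ← length_bs] at hr
    obtain ⟨rfl, rfl⟩ := Prod.ext_iff.1 hrab
    simp only at hlen ⊢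
    have hb := mem_bs.1 (List.getElem_mem hr)
    obtain ⟨P, hP, hP1, hP2⟩ := h3 (⟨r, by omega⟩, ⟨(bs k).length + r, by omega⟩)
      ⟨_, _, hb.1, hb.2.1, hb.2.2, phi_src hr rfl, phi_tgt hr rfl⟩
    refine ⟨P, hP, ?_, ?_⟩
    · rw [hP1]; rfl
    · rw [hP2, ← length_bs]; rfl

end

/-- The reduction. -/
def red (x : List (List Bool) × ℕ) : List (List Bool) × List (ℕ × ℕ) :=
  (mtxOf (vl x.1.length (min x.2 (x.1.length + 1)))
    (relB x.1.length (min x.2 (x.1.length + 1)) (SM x.1)), prs (min x.2 (x.1.length + 1)))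

theorem red_iff (x : List (List Bool) × ℕ) : HasClique x ↔ HasLinkage (red x) := by
  obtain ⟨M, k⟩ := x
  rw [clique_min]
  unfold red
  simp only
  rw [hasLinkage_iff, (lay _ _ _).linked_iff, clique_iff]

theorem red_param (x : List (List Bool) × ℕ) : (red x).2.length ≤ 10 * (x.2 * x.2) := by
  unfold red prs
  simp only [List.length_map, List.length_range]
  have h1 : min x.2 (x.1.length + 1) ≤ x.2 := min_le_left _ _
  exact Nat.mul_le_mul_left _ (Nat.mul_le_mul h1 h1)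

theorem red_acyclic (x : List (List Bool) × ℕ) (w : List (Fin (red x).1.length)) :
    ¬ IsCycle (arcOf (red x).1) w := (lay _ _ _).acyclic w

theorem red_short (x : List (List Bool) × ℕ) (w : List (Fin (red x).1.length))
    (hw : IsMaximalEar (arcOf (red x).1) w) (hne : arcs w ≠ []) :
    ∃ a, a.Sublist (arcs w) ∧ Identifies (arcOf (red x).1) w a ∧ a.length ≤ 19 :=
  (lay _ _ _).short hw hne

theorem red_ea (x : List (List Bool) × ℕ) : ea (arcOf (red x).1) ≤ 19 := (lay _ _ _).ea_le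

end Q224.EA
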