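import Pool.Agent.Q161.EA.Stm
import Pool.Agent.Q239.EL.NV

/-!
# Project EA, job SELC: the sum of the numbers of the everywhere locally soluble coverings
-/

set_option autoImplicit false

namespace Pool.Agent.Q224.EA

open Polynomial NumberField IsDedekindDomain Finset
open Pool.Agent.Q51.EL Pool.Agent.Q239.EL
open Pool.Agent.Q161.EA
open Pool.Agent.Q161.OD (P1 P2)
open Pool.Agent.Q161.OS (Cov Tr Gd S_DESC2 S_TY2O)

section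

variable {L : Type} [Field L] [NumberField L]

theorem P1_mono {l : ℕ} {T T' : Set (𝓞 L × ℤ)} (h : T ⊆ T') (h1 : P1 l T') : P1 l T :=
  fun p hp => h1 p (h hp)

theorem P2_mono {l : ℕ} {T T' : Set (𝓞 L × ℤ)} (h : T ⊆ T') (h2 : P2 l T') : P2 l T :=
  ⟨fun p hp q hq => h2.1 p (h hp) q (h hq), fun p hp q hq => h2.2 p (h hp) q (h hq)⟩

theorem one_ne_exp : (WithZero.exp (-1 : ℤ) : WithZero (Multiplicative ℤ)) ≠ 1 := by
  rw [← WithZero.exp_zero, Ne, WithZero.exp_inj]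
  norm_num

/-- the primes of `D` outside `B` are determined by `α` and `m` -/
theorem dvd_iff_of_gd {B : ℕ} {t : 𝓞 L} {κ D : ℤ} {α : 𝓞 L} {m : ℤ} (hG : Gd B t κ D α m)
    {l : ℕ} (hl : l.Prime) (hlB : ¬ l ∣ B) : (l : ℤ) ∣ D ↔
      ((l : ℤ) ∣ m ∨ ∃ v : HeightOneSpectrum (𝓞 L), Abv v l ∧ v.valuation L (α : L) ≠ 1) := by
  constructor
  · intro hD
    rcases hG.odd l hl hlB hD with h | ⟨-, v0, h1, -, h3, -⟩
    · exact Or.inl h.1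
    · exact Or.inr ⟨v0, h1, by rw [h3]; exact one_ne_exp⟩
  · intro h
    by_contra hD
    obtain ⟨h1, h2⟩ := hG.even l hl hlB hD
    rcases h with h | ⟨v, hv, hv1⟩
    · exact h1 h
    · exact hv1 (h2 v hv)

theorem D_unique {B : ℕ} {t : 𝓞 L} {κ κ' D D' : ℤ} {α : 𝓞 L} {m : ℤ} (hD : Squarefree D)
    (hD' : Squarefree D') (hG : Gd B t κ D α m) (hG' : Gd B t κ' D' α m)
    (hg : Nat.gcd D.natAbs B = Nat.gcd D'.natAbs B) (hs : 0 < D ↔ 0 < D') : D = D' := by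
  have key : ∀ l : ℕ, l.Prime → (l ∣ D.natAbs ↔ l ∣ D'.natAbs) := by
    intro l hl
    by_cases hlB : l ∣ B
    · have h1 : l ∣ D.natAbs ↔ l ∣ Nat.gcd D.natAbs B := by
        rw [Nat.dvd_gcd_iff]; exact ⟨fun h => ⟨h, hlB⟩, fun h => h.1⟩
      have h2 : l ∣ D'.natAbs ↔ l ∣ Nat.gcd D'.natAbs B := by
        rw [Nat.dvd_gcd_iff]; exact ⟨fun h => ⟨h, hlB⟩, fun h => h.1⟩
      rw [h1, h2, hg]
    · rw [← Int.natCast_dvd, ← Int.natCast_dvd, dvd_iff_of_gd hG hl hlB, dvd_iff_of_gd hG' hl hlB]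
  have h0 : D ≠ 0 := hD.ne_zero
  have h0' : D' ≠ 0 := hD'.ne_zero
  have hpf : D.natAbs.primeFactors = D'.natAbs.primeFactors := by
    ext l
    rw [Nat.mem_primeFactors, Nat.mem_primeFactors]
    constructor
    · rintro ⟨h1, h2, -⟩
      exact ⟨h1, (key l h1).1 h2, by omega⟩
    · rintro ⟨h1, h2, -⟩
      exact ⟨h1, (key l h1).2 h2, by omega⟩
  have habs : D.natAbs = D'.natAbs := by
    rw [← Nat.prod_primeFactors_of_squarefree (Int.squarefree_natAbs.2 hD),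
      ← Nat.prod_primeFactors_of_squarefree (Int.squarefree_natAbs.2 hD'), hpf]
  rcases Int.natAbs_eq_natAbs_iff.1 habs with h | h
  · exact h
  · exfalso
    rcases lt_or_gt_of_ne h0 with h1 | h1
    · have : 0 < D' := by omega
      have := hs.2 this
      omega
    · have := hs.1 h1
      omega

theorem tr_of_eq {α : L} {c c' : ℚ} {δ δ' η η' : L} (hc : c ≠ 0) (hc' : c' ≠ 0) (hη : η ≠ 0)
    (hη' : η' ≠ 0) (h : α = c * δ * η ^ 2) (h' : α = c' * δ' * η' ^ 2) : Tr L (δ * δ') := by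
  have hcL : (c : L) ≠ 0 := by exact_mod_cast hc
  have hcL' : (c' : L) ≠ 0 := by exact_mod_cast hc'
  refine ⟨(c * c')⁻¹, α / (η * η'), ?_⟩
  have h2 : α ^ 2 = (c * δ * η ^ 2) * (c' * δ' * η' ^ 2) := by
    rw [sq]
    nth_rewrite 1 [h]
    rw [h']
  rw [div_pow, h2]
  push_cast
  field_simp

end

theorem selc_of (hDE : S_DESC2) (hTY : S_TY2O) : S_BOX2 → S_NICE → S_SELC := by
  classical
  intro hBOX hNICE f L _ _ θ hset hodd hdeg t ht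
  obtain ⟨B, C0, hB, hC0, hdesc⟩ := hDE f L θ hset hodd hdeg t ht
  have hodd' : Odd (Module.finrank ℚ L) := by rw [hset.deg]; exact hodd
  have hdeg' : 3 ≤ Module.finrank ℚ L := by rw [hset.deg]; exact hdeg
  choose K hK using fun κ : ℤ => hNICE L B t κ C0 hB hC0
  choose Cb hCb0 hCb using fun κ : ℤ => hBOX L hodd' hdeg' B (K κ) C0 hB hC0
  obtain ⟨Ks, hKs⟩ : ∃ Ks : Finset ℤ, Ks = (Icc (-(B : ℤ)) B).filter (fun κ => κ ∣ (B : ℤ)) :=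
    ⟨_, rfl⟩
  obtain ⟨Tk, hTk⟩ : ∃ Tk : ℤ → Set (𝓞 L × ℤ), Tk = fun κ => {p | ∃ D : ℤ, Squarefree D ∧ p.1 ≠ 0 ∧
      Gd B t κ D p.1 p.2 ∧ 1 ≤ p.2 ∧ (p.2 : ℝ) ≤ D.natAbs ∧
      ∀ σ : L →+* ℂ, ‖σ (p.1 : L)‖ ≤
        C0 * ((D.natAbs : ℝ) / p.2) ^ ((1 : ℝ) / Module.finrank ℚ L)} := ⟨_, rfl⟩
  have hTP : ∀ κ ∈ Ks, ∀ l : ℕ, l.Prime → ¬ l ∣ B → P1 l (Tk κ) ∧ P2 l (Tk κ) := by
    intro κ hκ l hl hlB
    rw [hKs, mem_filter] at hκ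
    obtain ⟨h1, h2⟩ := hTY L B t κ hB hκ.2 l hl hlB
    have hsub : Tk κ ⊆ {p : 𝓞 L × ℤ | ∃ D : ℤ, Gd B t κ D p.1 p.2} := by
      intro p hp
      rw [hTk] at hp
      obtain ⟨D, -, -, hG, -⟩ := hp
      exact ⟨D, hG⟩
    exact ⟨P1_mono hsub h1, P2_mono hsub h2⟩
  have hTN : ∀ κ, ∀ p ∈ Tk κ, Nice (K κ) p.1 := by
    intro κ p hp
    rw [hTk] at hp
    obtain ⟨D, h1, h2, h3, h4, h5, h6⟩ := hp
    exact hK κ D p.1 p.2 h1 h2 h3 h4 h5 h6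
  refine ⟨(∑ κ ∈ Ks, Cb κ) * (2 * (B + 1)) + 1, ?_, ?_⟩
  · have : 0 ≤ ∑ κ ∈ Ks, Cb κ := Finset.sum_nonneg fun κ _ => (hCb0 κ).le
    positivity
  intro F hF1 hF2 X hX
  have hbox : ∀ κ ∈ Ks, _ := fun κ hκ => hCb κ (Tk κ) (hTP κ hκ) (hTN κ) X hX
  obtain ⟨U, hU⟩ : ∃ U : Finset (Σ _ : ℤ, L),
      U = ((Icc (-⌊X⌋) ⌊X⌋).filter (fun D : ℤ => Squarefree D)).sigma (fun D => F D) := ⟨_, rfl⟩
  have hUc : (∑ D ∈ (Icc (-⌊X⌋) ⌊X⌋).filter (fun D : ℤ => Squarefree D), (F D).card) = U.card := by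
    rw [hU, card_sigma]
  have hUmem : ∀ x ∈ U, Squarefree x.1 ∧ x.2 ∈ F x.1 ∧ (x.1.natAbs : ℝ) ≤ X := by
    intro x hx
    rw [hU, mem_sigma, mem_filter, mem_Icc] at hx
    obtain ⟨⟨⟨h1, h2⟩, h3⟩, h4⟩ := hx
    refine ⟨h3, h4, ?_⟩
    have h5 : (x.1.natAbs : ℤ) ≤ ⌊X⌋ := by omega
    calc (x.1.natAbs : ℝ) = ((x.1.natAbs : ℤ) : ℝ) := by simp
      _ ≤ (⌊X⌋ : ℝ) := by exact_mod_cast h5
      _ ≤ X := Int.floor_le X
  have hex : ∀ x ∈ U, ∃ y : ℤ × (𝓞 L × ℤ),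
      (∃ (c : ℚ) (η : L), c ≠ 0 ∧ η ≠ 0 ∧ (y.2.1 : L) = c * x.2 * η ^ 2) ∧ y.1 ∣ (B : ℤ) ∧
      y.2.1 ≠ 0 ∧ Gd B t y.1 x.1 y.2.1 y.2.2 ∧ 1 ≤ y.2.2 ∧ (y.2.2 : ℝ) ≤ x.1.natAbs ∧
      ∀ σ : L →+* ℂ, ‖σ (y.2.1 : L)‖ ≤
        C0 * ((x.1.natAbs : ℝ) / y.2.2) ^ ((1 : ℝ) / Module.finrank ℚ L) := by
    intro x hx
    obtain ⟨h1, h2, -⟩ := hUmem x hx
    obtain ⟨h3, d, h4, h5⟩ := hF1 x.1 x.2 h2
    obtain ⟨α, c, η, κ, m, k1, k2, k3, k4, k5, k6, k7, k8, k9⟩ :=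
      hdesc x.1 d h1 (by rw [h4]; exact h3) h5
    exact ⟨(κ, (α, m)), ⟨c, η, k2, k3, by rw [← h4]; exact k4⟩, k5, k1, k6, k7, k8, k9⟩
  choose! Ψ hΨ using hex
  obtain ⟨bx, hbx⟩ : ∃ bx : ℤ → Finset (𝓞 L × ℤ), ∀ κ ∈ Ks, (∀ p, p ∈ bx κ ↔ p ∈ {p ∈ Tk κ | 1 ≤ p.2 ∧ (p.2 : ℝ) ≤ X ∧
      ∀ σ : L →+* ℂ, ‖σ (p.1 : L)‖ ≤ C0 * (X / p.2) ^ ((1 : ℝ) / Module.finrank ℚ L)}) ∧
      ((bx κ).card : ℝ) ≤ Cb κ * X := by
    refine ⟨fun κ => if h : κ ∈ Ks then (hbox κ h).1.toFinset else ∅, ?_⟩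
    intro κ hκ
    simp only [hκ, dif_pos]
    refine ⟨fun p => Set.Finite.mem_toFinset _, ?_⟩
    rw [← Set.ncard_eq_toFinset_card _ (hbox κ hκ).1]
    exact (hbox κ hκ).2
  obtain ⟨V, hV⟩ : ∃ V : Finset ((Σ _ : ℤ, 𝓞 L × ℤ) × (Bool × ℕ)),
      V = (Ks.sigma (fun κ => bx κ)) ×ˢ ((univ : Finset Bool) ×ˢ (range (B + 1))) := ⟨_, rfl⟩
  have hVc : (V.card : ℝ) ≤ (∑ κ ∈ Ks, Cb κ) * X * (2 * (B + 1)) := by
    rw [hV, card_product, card_product, card_sigma, card_range]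
    push_cast
    rw [Finset.card_univ, Fintype.card_bool]
    push_cast
    apply mul_le_mul_of_nonneg_right _ (by positivity)
    rw [Finset.sum_mul]
    exact Finset.sum_le_sum fun κ hκ => (hbx κ hκ).2
  have hle : U.card ≤ V.card := by
    apply Finset.card_le_card_of_injOn
      (fun x => ((⟨(Ψ x).1, (Ψ x).2⟩ : Σ _ : ℤ, 𝓞 L × ℤ), (decide (0 < x.1), Nat.gcd x.1.natAbs B)))
    · intro x hx
      have hx' : x ∈ U := hx
      obtain ⟨h1, h2, h3⟩ := hUmem x hx'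
      obtain ⟨-, k5, k1, k6, k7, k8, k9⟩ := hΨ x hx'
      have hκ : (Ψ x).1 ∈ Ks := by
        rw [hKs, mem_filter, mem_Icc]
        have hBpos : (0 : ℤ) < B := by exact_mod_cast Nat.pos_of_ne_zero hB
        refine ⟨⟨?_, Int.le_of_dvd hBpos k5⟩, k5⟩
        have := Int.le_of_dvd hBpos ((neg_dvd).2 k5)
        omega
      rw [mem_coe, hV, mem_product, mem_sigma, mem_product, mem_range]
      refine ⟨⟨hκ, ?_⟩, mem_univ _, ?_⟩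
      · rw [(hbx _ hκ).1]
        refine ⟨?_, k7, k8.trans h3, ?_⟩
        · rw [hTk]
          exact ⟨x.1, h1, k1, k6, k7, k8, k9⟩
        · intro σ
          refine (k9 σ).trans ?_
          have hm : (0 : ℝ) < ((Ψ x).2.2 : ℝ) := by exact_mod_cast (by omega : 0 < (Ψ x).2.2)
          apply mul_le_mul_of_nonneg_left _ hC0.le
          apply Real.rpow_le_rpow (by positivity) _ (by positivity)
          exact div_le_div_of_nonneg_right h3 hm.le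
      · exact Nat.lt_succ_of_le (Nat.gcd_le_right _ (Nat.pos_of_ne_zero hB))
    · intro x hx x' hx' hxx
      have hxU : x ∈ U := hx
      have hxU' : x' ∈ U := hx'
      simp only [Prod.mk.injEq] at hxx
      obtain ⟨hΨΨ, hsgn, hgcd⟩ := hxx
      have hΨeq : Ψ x = Ψ x' := by
        have h1 := congrArg Sigma.fst hΨΨ
        have h2 := congrArg (fun z : (Σ _ : ℤ, 𝓞 L × ℤ) => z.2) hΨΨ
        exact Prod.ext h1 h2
      obtain ⟨h1, h2, -⟩ := hUmem x hxU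
      obtain ⟨h1', h2', -⟩ := hUmem x' hxU'
      obtain ⟨⟨c, η, hc, hη, hα⟩, -, -, hG, -⟩ := hΨ x hxU
      obtain ⟨⟨c', η', hc', hη', hα'⟩, -, -, hG', -⟩ := hΨ x' hxU'
      rw [← hΨeq] at hα' hG'
      have hD : x.1 = x'.1 := D_unique h1 h1' hG hG' hgcd (decide_eq_decide.1 hsgn)
      have hTr := tr_of_eq hc hc' hη hη' hα hα'
      have hδ : x.2 = x'.2 := by
        by_contra hne
        rw [← hD] at h2'
        exact hF2 x.1 x.2 h2 x'.2 h2' hne hTr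
      obtain ⟨D, δ⟩ := x
      obtain ⟨D', δ'⟩ := x'
      simp only at hD hδ
      rw [hD, hδ]
  rw [hUc]
  have h1 : (U.card : ℝ) ≤ V.card := by exact_mod_cast hle
  have h2 := h1.trans hVc
  have h3 : ((∑ κ ∈ Ks, Cb κ) * (2 * (B + 1)) + 1) * X =
      (∑ κ ∈ Ks, Cb κ) * X * (2 * (B + 1)) + X := by ring
  rw [h3]
  linarith

end Pool.Agent.Q224.EA
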