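import Pool.Agent.Q224.EA.Net

/-!
# Soundness: a linkage gives a solution of the grid tiling instance
-/

set_option autoImplicit false

namespace Q224.EA

variable {n k : ℕ} {T : ℕ → ℕ → ℕ → ℕ → Bool} {P : ℕ → ℕ × ℕ → Cd → Prop}

theorem zs_lt {q : ℕ} {s : ℕ × ℕ} (h1 : s.1 < k) (h2 : s.2 < k) :
    (zs k q s).1 < k ∧ (zs k q s).2 < k := by
  have hk : 0 < k := by omega
  unfold zs
  split_ifs
  · exact ⟨h1, Nat.mod_lt _ hk⟩
  · exact ⟨Nat.mod_lt _ hk, h2⟩
  · exact ⟨h1, h2⟩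

/-- The data of all bundle paths. -/
structure Crs (n k : ℕ) (T : ℕ → ℕ → ℕ → ℕ → Bool) (a b : ℕ → ℕ × ℕ → ℕ → ℕ) : Prop where
  rng : ∀ c < 2, ∀ s : ℕ × ℕ, s.1 < k → s.2 < k → ∀ q < 8,
    1 ≤ a c s q ∧ a c s q ≤ b c s q ∧ b c s q ≤ n
  row : ∀ c < 2, ∀ s : ℕ × ℕ, s.1 < k → s.2 < k → ∀ q < 7,
    RR n T c q s (b c s q) (a c s (q + 1))
  tst : ∀ s : ℕ × ℕ, s.1 < k → s.2 < k → ∀ q < 8,
    b (1 - q % 2) (zs k q s) q ≤ a (q % 2) s q

theorem Fam.crs (F : Fam n k T P) : ∃ a b, Crs n k T a b := by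
  have h : ∀ (c : ℕ) (s : ℕ × ℕ), ∃ a b : ℕ → ℕ, c < 2 → s.1 < k → s.2 < k →
      (∀ q < 8, 1 ≤ a q ∧ a q ≤ b q ∧ b q ≤ n ∧
        P (8 + c) s (c, q, s, a q) ∧ P (8 + c) s (c, q, s, b q)) ∧
        ∀ q < 7, RR n T c q s (b q) (a (q + 1)) := by
    intro c s
    by_cases hc : c < 2 ∧ s.1 < k ∧ s.2 < k
    · obtain ⟨a, b, h⟩ := F.course hc.1 hc.2.1 hc.2.2
      exact ⟨a, b, fun _ _ _ => h⟩
    · exact ⟨id, id, fun h1 h2 h3 => absurd ⟨h1, h2, h3⟩ hc⟩
  choose a b h using h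
  refine ⟨a, b, fun c hc s h1 h2 q hq => ?_, fun c hc s h1 h2 => (h c s hc h1 h2).2,
    fun s h1 h2 q hq => ?_⟩
  · obtain ⟨h3, h4, h5, -⟩ := (h c s hc h1 h2).1 q hq
    exact ⟨h3, h4, h5⟩
  · obtain ⟨m, -, hm1, hm2⟩ := F.test hq h1 h2
    obtain ⟨hz1, hz2⟩ := zs_lt (q := q) h1 h2
    have hY := ((h (q % 2) s (by omega) h1 h2).1 q hq).2.2.2.1
    have hZ := (h (1 - q % 2) (zs k q s) (by omega) hz1 hz2).1 q hq
    have h3 : m < a (q % 2) s q := by
      by_contra hc
      push Not at hc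
      have := (F.disj _ _ _ _ _ (by omega) h1 h2 (by omega) h1 h2 hY (hm1 _ hc)).1
      omega
    have h4 : b (1 - q % 2) (zs k q s) q < m + 2 := by
      by_contra hc
      push Not at hc
      have := (F.disj _ _ _ _ _ (by omega) hz1 hz2 (by omega) h1 h2 hZ.2.2.2.2
        (hm2 _ hc (by have := hZ.2.2.1; omega))).1
      omega
    omega

/-- All positions of the first bundles along `zs` agree. -/
theorem Crs.link {a b : ℕ → ℕ × ℕ → ℕ → ℕ} (C : Crs n k T a b) {q : ℕ} (hq : q = 0 ∨ q = 4)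
    {s : ℕ × ℕ} (h1 : s.1 < k) (h2 : s.2 < k) :
    a 0 s q = b 0 s (q + 1) ∧ b 0 (zs k (q + 1) s) (q + 1) = b 0 s (q + 1) ∧
      b 0 (zs k (q + 1) s) (q + 3) + b 0 s (q + 1) = n + 1 := by
  obtain ⟨hz1, hz2⟩ := zs_lt (q := q + 1) h1 h2
  have ez : zs k (q + 3) s = zs k (q + 1) s := by
    unfold zs
    rcases hq with rfl | rfl <;> simp
  have e0 : zs k q s = s := by
    unfold zs
    rcases hq with rfl | rfl <;> simp
  have e2 : zs k (q + 2) s = s := by
    unfold zs
    rcases hq with rfl | rfl <;> simp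
  have t0 := C.tst s h1 h2 q (by omega)
  have t1 := C.tst s h1 h2 (q + 1) (by omega)
  have t2 := C.tst s h1 h2 (q + 2) (by omega)
  have t3 := C.tst s h1 h2 (q + 3) (by omega)
  rw [e0] at t0
  rw [e2] at t2
  rw [ez] at t3
  have m0 : q % 2 = 0 := by omega
  have m1 : (q + 1) % 2 = 1 := by omega
  have m2 : (q + 2) % 2 = 0 := by omega
  have m3 : (q + 3) % 2 = 1 := by omega
  rw [m0] at t0
  rw [m1] at t1
  rw [m2] at t2
  rw [m3] at t3
  simp only [Nat.sub_zero, Nat.sub_self] at t0 t1 t2 t3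
  have R0 : ∀ c < 2, ∀ s : ℕ × ℕ, s.1 < k → s.2 < k → a c s (q + 1) = b c s q := by
    intro c hc s h1 h2
    have := C.row c hc s h1 h2 q (by omega)
    unfold RR at this
    rcases this with h | h | h <;> omega
  have R1 : ∀ c < 2, ∀ s : ℕ × ℕ, s.1 < k → s.2 < k → b c s (q + 1) + a c s (q + 2) = n + 1 := by
    intro c hc s h1 h2
    have := C.row c hc s h1 h2 (q + 1) (by omega)
    unfold RR at this
    rcases this with h | h | h
    · omega
    · exact h.2
    · omega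
  have R2 : ∀ c < 2, ∀ s : ℕ × ℕ, s.1 < k → s.2 < k → a c s (q + 3) = b c s (q + 2) := by
    intro c hc s h1 h2
    have := C.row c hc s h1 h2 (q + 2) (by omega)
    unfold RR at this
    rcases this with h | h | h
    · exact h.2
    · omega
    · omega
  set s' := zs k (q + 1) s with hs'
  have g : ∀ c < 2, ∀ s : ℕ × ℕ, s.1 < k → s.2 < k → ∀ i < 4, a c s (q + i) ≤ b c s (q + i) ∧
      b c s (q + i) ≤ n := fun c hc s h1 h2 i hi => (C.rng c hc s h1 h2 (q + i) (by omega)).2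
  have g1 := g 0 (by norm_num) s h1 h2 0 (by norm_num)
  have g2 := g 0 (by norm_num) s h1 h2 1 (by norm_num)
  have g3 := g 0 (by norm_num) s' hz1 hz2 1 (by norm_num)
  have g4 := g 0 (by norm_num) s' hz1 hz2 2 (by norm_num)
  have g5 := g 0 (by norm_num) s' hz1 hz2 3 (by norm_num)
  have g6 := g 1 (by norm_num) s h1 h2 2 (by norm_num)
  rw [Nat.add_zero] at g1
  have r1 := R0 0 (by norm_num) s h1 h2
  have r2 := R1 0 (by norm_num) s h1 h2
  have r3 := R1 0 (by norm_num) s' hz1 hz2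
  have r4 := R2 0 (by norm_num) s' hz1 hz2
  have r5 := R0 1 (by norm_num) s h1 h2
  have r6 := R2 1 (by norm_num) s h1 h2
  omega

theorem Crs.solution {a b : ℕ → ℕ × ℕ → ℕ → ℕ} (C : Crs n k T a b) :
    ∃ x y : ℕ → ℕ, (∀ i < k, x i < n) ∧ (∀ i < k, y i < n) ∧
      ∀ i < k, ∀ j < k, T i j (x i) (y j) = true := by
  have hx : ∀ i < k, ∀ j < k, b 0 (i, j) 1 = b 0 (i, 0) 1 := by
    intro i hi j
    induction j with
    | zero => intro _; rfl
    | succ j ih =>
      intro hj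
      have := (C.link (Or.inl rfl) (s := (i, j)) hi (show j < k by omega)).2.1
      have e : zs k (0 + 1) (i, j) = (i, j + 1) := by
        unfold zs
        simp [Nat.mod_eq_of_lt hj]
      rw [e] at this
      simp only [Nat.zero_add] at this
      rw [this]
      exact ih (by omega)
  have hy : ∀ j < k, ∀ i < k, b 0 (i, j) 5 = b 0 (0, j) 5 := by
    intro j hj i
    induction i with
    | zero => intro _; rfl
    | succ i ih =>
      intro hi
      have := (C.link (Or.inr rfl) (s := (i, j)) (show i < k by omega) hj).2.1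
      have e : zs k (4 + 1) (i, j) = (i + 1, j) := by
        unfold zs
        simp [Nat.mod_eq_of_lt hi]
      rw [e] at this
      simp only [Nat.reduceAdd] at this
      rw [this]
      exact ih (by omega)
  have h3 : ∀ i < k, ∀ j < k, b 0 (i, j) 3 + b 0 (i, j) 1 = n + 1 := by
    intro i hi j hj
    obtain ⟨j', hj', e⟩ : ∃ j' < k, (j' + 1) % k = j := by
      by_cases h0 : j = 0
      · refine ⟨k - 1, by omega, ?_⟩
        rw [Nat.sub_add_cancel (by omega), Nat.mod_self, h0]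
      · refine ⟨j - 1, by omega, ?_⟩
        rw [Nat.sub_add_cancel (by omega), Nat.mod_eq_of_lt hj]
    have h4 := C.link (Or.inl rfl) (s := (i, j')) hi hj'
    have e : zs k (0 + 1) (i, j') = (i, j) := by
      unfold zs
      simp [e]
    rw [e] at h4
    simp only [Nat.zero_add] at h4
    omega
  refine ⟨fun i => b 0 (i, 0) 1 - 1, fun j => b 0 (0, j) 5 - 1, fun i hi => ?_, fun j hj => ?_,
    fun i hi j hj => ?_⟩
  · have := C.rng 0 (by norm_num) (i, 0) hi (show 0 < k by omega) 1 (by norm_num)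
    simp only
    omega
  · have := C.rng 0 (by norm_num) (0, j) (show 0 < k by omega) hj 5 (by norm_num)
    simp only
    omega
  · have h4 := C.row 0 (by norm_num) (i, j) hi hj 3 (by norm_num)
    unfold RR at h4
    rcases h4 with h | h | h
    · omega
    · omega
    · obtain ⟨-, h | h⟩ := h
      · omega
      · simp only [Nat.reduceAdd] at h
        have h5 := (C.link (Or.inr rfl) (s := (i, j)) hi hj).1
        simp only [Nat.reduceAdd] at h5
        have h6 := h3 i hi j hj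
        have h7 := hx i hi j hj
        have h8 := hy j hj i hi
        have e1 : n - b 0 (i, j) 3 = b 0 (i, 0) 1 - 1 := by omega
        have e2 : a 0 (i, j) 4 - 1 = b 0 (0, j) 5 - 1 := by omega
        rw [e1, e2] at h
        exact h

end Q224.EA
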