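import Pool.Agent.Q224.EA.Red
import Pool.Agent.Q224.DS.Time

/-!
# The reduction is computable in polynomial time
-/

set_option autoImplicit false

namespace Pool.Agent.NPC.Q224EA

open _root_.Q224.EA _root_.Q224.RD Pool.Agent.NPC.H628F Pool.Agent.H628R2.Forb
open _root_.Q224.ED (SM)
open Pool.Agent.H633R2 Pool.Agent.NPC.Q224RD Turing
open Pool.Agent.NPC.Q224ED (p_SM)
open Pool.Agent.NPC.Q224DS (p_product)

variable {α : Type} [TEnc α]

section

variable {M : α → List (List Bool)} {n k q c p p' : α → ℕ} {s : α → ℕ × ℕ} {d e : α → Cd}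

theorem p_RRb (hM : Poly M) (hn : Poly n) (hc : Poly c) (hq : Poly q) (hs : Poly s)
    (hp : Poly p) (hp' : Poly p') :
    Poly (fun a => RRb (n a) (SM (M a)) (c a) (q a) (s a) (p a) (p' a)) := by
  unfold RRb
  have cst : ∀ c : ℕ, Poly (fun _ : α => c) := fun c => Poly.const c
  exact Poly.or (Poly.and (Poly.decide_eq (Poly.mod hq (cst 2)) (cst 0)) (Poly.decide_eq hp' hp))
    (Poly.or (Poly.and (Poly.or (Poly.decide_eq hq (cst 1)) (Poly.decide_eq hq (cst 5)))
      (Poly.decide_eq (Poly.add hp hp') (Poly.succ hn)))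
    (Poly.and (Poly.decide_eq hq (cst 3)) (Poly.or (Poly.decide_eq hc (cst 1))
      (p_SM hM (Poly.fst hs) (Poly.snd hs) (Poly.sub hn hp) (Poly.sub hp' (cst 1))))))

theorem p_zsb (hk : Poly k) (hq : Poly q) (hs : Poly s) :
    Poly (fun a => zsb (k a) (q a) (s a)) := by
  unfold zsb
  have cst : ∀ c : ℕ, Poly (fun _ : α => c) := fun c => Poly.const c
  have h1 : Poly (fun a => ((s a).1, ((s a).2 + 1) % k a)) :=
    Poly.pair (Poly.fst hs) (Poly.mod (Poly.succ (Poly.snd hs)) hk)
  have h2 : Poly (fun a => (((s a).1 + 1) % k a, (s a).2)) :=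
    Poly.pair (Poly.mod (Poly.succ (Poly.fst hs)) hk) (Poly.snd hs)
  exact Poly.ite (Poly.decide_eq hq (cst 1)) h1 (Poly.ite (Poly.decide_eq hq (cst 3)) h1
    (Poly.ite (Poly.decide_eq hq (cst 5)) h2 (Poly.ite (Poly.decide_eq hq (cst 7)) h2 hs)))

theorem p_relB (hM : Poly M) (hn : Poly n) (hk : Poly k) (hd : Poly d) (he : Poly e) :
    Poly (fun a => relB (n a) (k a) (SM (M a)) (d a) (e a)) := by
  have d1 := Poly.fst hd
  have dq := Poly.fst (Poly.snd hd)
  have ds := Poly.fst (Poly.snd (Poly.snd hd))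
  have dp := Poly.snd (Poly.snd (Poly.snd hd))
  have e1 := Poly.fst he
  have eq := Poly.fst (Poly.snd he)
  have es := Poly.fst (Poly.snd (Poly.snd he))
  have ep := Poly.snd (Poly.snd (Poly.snd he))
  have cst : ∀ c : ℕ, Poly (fun _ : α => c) := fun c => Poly.const c
  have one := cst 1
  unfold relB
  refine Poly.or ?_ (Poly.or ?_ (Poly.or ?_ (Poly.or ?_ ?_)))
  · unfold rel1
    exact Poly.and (Poly.decide_lt d1 (cst 2)) (Poly.and (Poly.decide_eq e1 d1)
      (Poly.and (Poly.decide_eq eq dq) (Poly.and (Poly.decide_eq es ds)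
        (Poly.decide_eq ep (Poly.succ dp)))))
  · unfold rel2
    exact Poly.and (Poly.decide_lt d1 (cst 2)) (Poly.and (Poly.decide_eq e1 d1)
      (Poly.and (Poly.decide_eq eq (Poly.succ dq)) (Poly.and (Poly.decide_eq es ds)
        (Poly.and (Poly.and (Poly.decide_le one dp) (Poly.decide_le dp hn))
          (Poly.and (Poly.and (Poly.decide_le one ep) (Poly.decide_le ep hn))
            (p_RRb hM hn d1 dq ds dp ep))))))
  · unfold rel3
    exact Poly.and (Poly.decide_lt d1 (cst 2)) (Poly.and (Poly.decide_eq (Poly.add e1 d1) one)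
      (Poly.and (Poly.decide_eq eq dq) (Poly.and (Poly.decide_eq (Poly.mod (Poly.add d1 dq)
        (cst 2)) (cst 0)) (Poly.and (Poly.decide_eq es (p_zsb hk dq ds))
          (Poly.decide_eq ep (Poly.add dp (cst 2)))))))
  · unfold rel4
    exact Poly.and (Poly.decide_eq d1 (cst 2)) (Poly.and (Poly.decide_eq es ds)
      (Poly.or (Poly.and (Poly.decide_lt dq (cst 8)) (Poly.and (Poly.decide_eq e1
        (Poly.mod dq (cst 2))) (Poly.and (Poly.decide_eq eq dq) (Poly.decide_eq ep (cst 0)))))
      (Poly.and (Poly.decide_le (cst 8) dq) (Poly.and (Poly.decide_eq (Poly.add e1 (cst 8)) dq)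
        (Poly.and (Poly.decide_eq eq (cst 0)) (Poly.and (Poly.decide_le one ep)
          (Poly.decide_le ep hn)))))))
  · unfold rel5
    exact Poly.and (Poly.decide_lt d1 (cst 2)) (Poly.and (Poly.decide_eq e1 (cst 3))
      (Poly.or (Poly.and (Poly.decide_lt eq (cst 8)) (Poly.and (Poly.decide_eq
        (Poly.add d1 (Poly.mod eq (cst 2))) one) (Poly.and (Poly.decide_eq dq eq)
          (Poly.and (Poly.decide_eq ds (p_zsb hk eq es)) (Poly.decide_eq dp (Poly.succ hn))))))
      (Poly.and (Poly.decide_le (cst 8) eq) (Poly.and (Poly.decide_eq (Poly.add d1 (cst 8)) eq)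
        (Poly.and (Poly.decide_eq dq (cst 7)) (Poly.and (Poly.decide_eq ds es)
          (Poly.and (Poly.decide_le one dp) (Poly.decide_le dp hn))))))))

theorem p_bs (hk : UPoly k) : Poly (fun a => bs (k a)) := by
  unfold bs
  exact p_product (Poly.const _) (p_product hk.range hk.range)

theorem p_vl (hn : UPoly n) (hk : UPoly k) : Poly (fun a => vl (n a) (k a)) := by
  unfold vl trk
  have hn2 : UPoly (fun a => n a + 2) := UPoly.add hn (UPoly.const 2)
  refine Poly.append ?_ (Poly.append ?_ ?_)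
  · exact Poly.map (F := fun (_ : α) (x : ℕ × (ℕ × ℕ)) => ((2, x.1, x.2, 0) : Cd)) (p_bs hk)
      (Poly.pair (Poly.const 2) (Poly.pair (Poly.fst p_snd) (Poly.pair (Poly.snd p_snd)
        (Poly.const 0))))
  · exact Poly.map (F := fun (_ : α) (x : ℕ × (ℕ × ℕ)) => ((3, x.1, x.2, 0) : Cd)) (p_bs hk)
      (Poly.pair (Poly.const 3) (Poly.pair (Poly.fst p_snd) (Poly.pair (Poly.snd p_snd)
        (Poly.const 0))))
  · exact p_product (Poly.const _) (p_product (Poly.const _) (p_product (p_product hk.range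
      hk.range) hn2.range))

end

theorem p_red : Poly red := by
  have hM : Poly (fun x : List (List Bool) × ℕ => x.1) := p_fst
  have hn : UPoly (fun x : List (List Bool) × ℕ => x.1.length) := UPoly.length hM
  have hn1 : UPoly (fun x : List (List Bool) × ℕ => x.1.length + 1) :=
    UPoly.add hn (UPoly.const 1)
  have hk : UPoly (fun x : List (List Bool) × ℕ => min x.2 (x.1.length + 1)) :=
    UPoly.of_le (Poly.min p_snd hn1.toPoly) hn1 (fun _ => min_le_right _ _)
  have hv : Poly (fun x : List (List Bool) × ℕ => vl x.1.length (min x.2 (x.1.length + 1))) :=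
    p_vl hn hk
  have hK : UPoly (fun x : List (List Bool) × ℕ => 10 * (min x.2 (x.1.length + 1) *
      min x.2 (x.1.length + 1))) := UPoly.mul (UPoly.const 10) (UPoly.mul hk hk)
  unfold red
  refine Poly.pair ?_ ?_
  · unfold mtxOf
    refine Poly.map (F := fun (x : List (List Bool) × ℕ) (d : Cd) =>
      (vl x.1.length (min x.2 (x.1.length + 1))).map fun e =>
        relB x.1.length (min x.2 (x.1.length + 1)) (SM x.1) d e) hv ?_
    refine Poly.map (F := fun (x : (List (List Bool) × ℕ) × Cd) (e : Cd) =>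
      relB x.1.1.length (min x.1.2 (x.1.1.length + 1)) (SM x.1.1) x.2 e) (hv.comp p_fst) ?_
    have h0 : Poly (fun x : ((List (List Bool) × ℕ) × Cd) × Cd => x.1.1) := Poly.fst p_fst
    exact p_relB (hM.comp h0) (hn.toPoly.comp h0) (hk.toPoly.comp h0) (Poly.snd p_fst) p_snd
  · unfold prs
    refine Poly.map (F := fun (x : List (List Bool) × ℕ) (r : ℕ) =>
      (r, 10 * (min x.2 (x.1.length + 1) * min x.2 (x.1.length + 1)) + r)) hK.range ?_
    exact Poly.pair p_snd (Poly.add (hK.toPoly.comp p_fst) p_snd)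

/-- The reduction of every problem in W[1]. -/
theorem reduction {α : Type} [TEnc α] {κ : α → ℕ} {P : α → Prop} (hP : InW1 κ P) :
    ∃ (F : α → List (List Bool) × List (ℕ × ℕ)) (g : ℕ → ℕ), FptTime κ F ∧ Computable g ∧
      ∀ a, (P a ↔ HasLinkage (F a)) ∧ (F a).2.length ≤ g (κ a) ∧
        (∀ w, ¬ IsCycle (arcOf (F a).1) w) ∧
        (∀ w, IsMaximalEar (arcOf (F a).1) w → arcs w ≠ [] → ∃ b, b.Sublist (arcs w) ∧
          Identifies (arcOf (F a).1) w b ∧ b.length ≤ 19) ∧ ea (arcOf (F a).1) ≤ 19 := by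
  obtain ⟨f, g, hf, hg, h⟩ := hP
  refine ⟨fun a => red (f a), fun m => 10 * (maj g m * maj g m), FptTime.poly_comp p_red hf, ?_,
    fun a => ⟨?_, ?_, red_acyclic _, red_short _, red_ea _⟩⟩
  · exact mul_computable (Computable.const 10)
      (mul_computable (maj_computable hg) (maj_computable hg))
  · rw [(h a).1, red_iff]
  · refine (red_param _).trans (Nat.mul_le_mul_left _ ?_)
    have := (h a).2.trans (le_maj g _)
    exact Nat.mul_le_mul this this

end Pool.Agent.NPC.Q224EA
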